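import Pool.Agent.Helper53.CAC.Defs

/-!
# Functions holomorphic near infinity

Removable singularity at infinity, maximum principle off a compact set, and the Moebius
transformation which turns a bounded function into an admissible one.
-/

set_option autoImplicit false

open Filter Topology Set Metric

namespace Pool.Agent.Helper53.CAC

/-- Removable singularity at infinity. -/
theorem inv_ext {Q : ℂ → ℂ} {h : ℂ} {N : ℝ} (hN : 0 < N)
    (hQ : DifferentiableOn ℂ Q {z | N < ‖z‖}) (hlim : Tendsto Q (cocompact ℂ) (𝓝 h)) :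
    DifferentiableOn ℂ (Function.update (fun ζ => Q ζ⁻¹) 0 h) (ball 0 N⁻¹) := by
  have hopen : IsOpen {z : ℂ | N < ‖z‖} := isOpen_lt continuous_const continuous_norm
  have hd : ∀ ζ : ℂ, ζ ≠ 0 → ζ ∈ ball (0 : ℂ) N⁻¹ →
      DifferentiableAt ℂ (Function.update (fun ζ => Q ζ⁻¹) 0 h) ζ := by
    intro ζ hζ hζb
    have hmem : ζ⁻¹ ∈ {z : ℂ | N < ‖z‖} := by
      simp only [mem_ofPred_eq, norm_inv]
      rw [mem_ball_zero_iff] at hζb
      have h0 : 0 < ‖ζ‖ := norm_pos_iff.mpr hζ
      rw [lt_inv_comm₀ hN h0]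
      exact hζb
    have h1 : DifferentiableAt ℂ Q ζ⁻¹ := hQ.differentiableAt (hopen.mem_nhds hmem)
    have h2 : DifferentiableAt ℂ (fun ζ : ℂ => Q ζ⁻¹) ζ :=
      h1.comp ζ (differentiableAt_inv hζ)
    refine h2.congr_of_eventuallyEq ?_
    filter_upwards [isOpen_ne.mem_nhds hζ] with w hw
    exact Function.update_of_ne hw _ _
  have hcont : ContinuousAt (Function.update (fun ζ => Q ζ⁻¹) 0 h) 0 := by
    rw [continuousAt_update_same]
    refine hlim.comp ?_
    rw [← Metric.cobounded_eq_cocompact]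
    exact tendsto_inv₀_nhdsNE_zero
  intro ζ hζ
  by_cases h0 : ζ = 0
  · subst h0
    have hA : AnalyticAt ℂ (Function.update (fun ζ => Q ζ⁻¹) 0 h) 0 := by
      refine Complex.analyticAt_of_differentiable_on_punctured_nhds_of_continuousAt ?_ hcont
      have hb : ball (0 : ℂ) N⁻¹ ∈ 𝓝 (0 : ℂ) := ball_mem_nhds _ (inv_pos.mpr hN)
      filter_upwards [mem_nhdsWithin_of_mem_nhds hb, self_mem_nhdsWithin] with w hw hw0
      exact hd w hw0 hw
    exact hA.differentiableAt.differentiableWithinAt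
  · exact (hd ζ h0 hζ).differentiableWithinAt

theorem exists_bound_compact {E : Set ℂ} (hE : IsCompact E) : ∃ N : ℝ, 0 < N ∧ ∀ z ∈ E, ‖z‖ ≤ N := by
  obtain ⟨N, hN⟩ := hE.isBounded.exists_norm_le
  exact ⟨max N 1, lt_of_lt_of_le one_pos (le_max_right _ _), fun z hz => (hN z hz).trans (le_max_left _ _)⟩

/-- Maximum principle off a compact set. -/
theorem max_ext {E : Set ℂ} (hE : IsCompact E) {F : ℂ → ℂ} (hFc : Continuous F)
    (hFd : DifferentiableOn ℂ F Eᶜ) {β : ℂ} (hlim : Tendsto F (cocompact ℂ) (𝓝 β)) {C : ℝ}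
    (hC : ∀ z ∈ E, ‖F z‖ ≤ C) (z : ℂ) : ‖F z‖ ≤ max C ‖β‖ := by
  by_contra hcon
  push Not at hcon
  set m := max C ‖β‖ with hm
  set m' := (m + ‖F z‖) / 2 with hm'
  have h1 : ‖β‖ < m' := by
    have : ‖β‖ ≤ m := le_max_right _ _
    rw [hm']; linarith
  have h2 : ∀ᶠ w in cocompact ℂ, ‖F w‖ < m' := hlim.norm.eventually_lt_const h1
  rw [← Metric.cobounded_eq_cocompact] at h2
  obtain ⟨r, -, hr⟩ := (Metric.hasBasis_cobounded_compl_closedBall (0 : ℂ)).eventually_iff.mp h2
  obtain ⟨N, hN0, hN⟩ := exists_bound_compact hE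
  set L := max (max r N) ‖z‖ + 1 with hL
  have hrL : r < L := by
    have : r ≤ max (max r N) ‖z‖ := (le_max_left _ _).trans (le_max_left _ _)
    linarith
  have hNL : N < L := by
    have : N ≤ max (max r N) ‖z‖ := (le_max_right _ _).trans (le_max_left _ _)
    linarith
  have hzL : ‖z‖ < L := by
    have : ‖z‖ ≤ max (max r N) ‖z‖ := le_max_right _ _
    linarith
  by_cases hzE : z ∈ E
  · have := hC z hzE
    have h3 : C ≤ m := le_max_left _ _
    linarith
  · have hopen : IsOpen (ball (0 : ℂ) L \ E) := isOpen_ball.sdiff hE.isClosed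
    have hUb : Bornology.IsBounded (ball (0 : ℂ) L \ E) := isBounded_ball.subset sdiff_subset
    have hd : DiffContOnCl ℂ F (ball (0 : ℂ) L \ E) :=
      ⟨hFd.mono fun w hw => hw.2, hFc.continuousOn⟩
    have hfr : ∀ w ∈ frontier (ball (0 : ℂ) L \ E), ‖F w‖ ≤ m' := by
      intro w hw
      by_cases hwE : w ∈ E
      · have := hC w hwE
        have h3 : C ≤ m := le_max_left _ _
        rw [hm']; linarith
      · have hwL : L ≤ ‖w‖ := by
          by_contra hlt
          push Not at hlt
          have : w ∈ ball (0 : ℂ) L \ E := ⟨by simpa using hlt, hwE⟩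
          rw [hopen.frontier_eq] at hw
          exact hw.2 this
        have : w ∈ (closedBall (0 : ℂ) r)ᶜ := by
          simp only [mem_compl_iff, mem_closedBall_zero_iff, not_le]
          linarith
        exact (hr this).le
    have := Complex.norm_le_of_forall_mem_frontier_norm_le hUb hd hfr
      (subset_closure (⟨by simpa using hzL, hzE⟩ : z ∈ ball (0 : ℂ) L \ E))
    rw [hm'] at this
    linarith

/-- If `‖F‖` attains its maximum at infinity then `F` is constant near infinity. -/
theorem const_inf {E : Set ℂ} (hE : IsCompact E) {F : ℂ → ℂ}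
    (hFd : DifferentiableOn ℂ F Eᶜ) {β a : ℂ} (hlim : Tendsto F (cocompact ℂ) (𝓝 β))
    (ha : Tendsto (fun z => z * (F z - β)) (cocompact ℂ) (𝓝 a))
    (hmax : ∀ z, ‖F z‖ ≤ ‖β‖) : a = 0 := by
  obtain ⟨N, hN0, hN⟩ := exists_bound_compact hE
  have hd := inv_ext hN0 (hFd.mono fun z hz hzE => by
    have := hN z hzE
    simp only [mem_ofPred_eq] at hz
    linarith) hlim
  set φ := Function.update (fun ζ => F ζ⁻¹) 0 β with hφ
  have hb : ball (0 : ℂ) N⁻¹ ∈ 𝓝 (0 : ℂ) := ball_mem_nhds _ (inv_pos.mpr hN0)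
  have hev : ∀ᶠ w in 𝓝 (0 : ℂ), φ w = φ 0 := by
    refine Complex.eventually_eq_of_isLocalMax_norm ?_ ?_
    · filter_upwards [hb] with w hw
      exact hd.differentiableAt (isOpen_ball.mem_nhds hw)
    · refine Filter.Eventually.of_forall fun w => ?_
      have h0 : φ 0 = β := by rw [hφ]; exact Function.update_self _ _ _
      simp only [Function.comp, h0]
      by_cases hw : w = 0
      · rw [hw, h0]
      · have : φ w = F w⁻¹ := by rw [hφ]; exact Function.update_of_ne hw _ _
        rw [this]; exact hmax _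
  have hev2 : ∀ᶠ z in cocompact ℂ, F z = β := by
    have h1 : Tendsto (fun z : ℂ => z⁻¹) (cocompact ℂ) (𝓝 0) := by
      rw [← Metric.cobounded_eq_cocompact]
      exact tendsto_inv₀_cobounded
    have h2 : ∀ᶠ z : ℂ in cocompact ℂ, z ≠ 0 := by
      filter_upwards [(isCompact_singleton (x := (0 : ℂ))).compl_mem_cocompact] with z hz
      exact hz
    filter_upwards [h1.eventually hev, h2] with z hz hz0
    have h3 : φ z⁻¹ = F z := by
      rw [hφ, Function.update_of_ne (inv_ne_zero hz0)]
      simp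
    rw [h3] at hz
    rw [hz, hφ]
    exact Function.update_self _ _ _
  have hz : Tendsto (fun z => z * (F z - β)) (cocompact ℂ) (𝓝 0) := by
    refine (tendsto_congr' ?_).mpr tendsto_const_nhds
    filter_upwards [hev2] with z hz
    rw [hz]; simp
  exact tendsto_nhds_unique ha hz

end Pool.Agent.Helper53.CAC
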