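import Pool.Agent.Helper53.CAC.Main

/-!
# Translations and the closed disc
-/

set_option autoImplicit false

open Filter Topology Set Metric Real MeasureTheory ComplexConjugate

namespace Pool.Agent.Helper53.CAC

theorem tendsto_add_cocompact (a : ℂ) : Tendsto (fun z : ℂ => z + a) (cocompact ℂ) (cocompact ℂ) :=
  (Homeomorph.addRight a).isClosedEmbedding.tendsto_cocompact

/-- Translation of an admissible function. -/
theorem Admissible.translate {M : Set ℂ} {f : ℂ → ℂ} {A : ℂ} (hf : Admissible M f A) (a : ℂ) :
    Admissible {z | z + a ∈ M} (fun z => f (z + a)) A where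
  cont := hf.cont.comp (continuous_id.add continuous_const)
  bound := fun z => hf.bound _
  holo := by
    obtain ⟨K, hK, hKM, hd⟩ := hf.holo
    refine ⟨(fun z => z + a) ⁻¹' K, ?_, fun z hz => hKM hz, ?_⟩
    · exact (Homeomorph.addRight a).isCompact_preimage.mpr hK
    · exact hd.comp (differentiableOn_id.add_const a) fun z hz => hz
  zero := hf.zero.comp (tendsto_add_cocompact a)
  coeff := by
    have h1 : Tendsto (fun z => (z + a) * f (z + a) - a * f (z + a)) (cocompact ℂ)
        (𝓝 (A - a * 0)) :=
      (hf.coeff.comp (tendsto_add_cocompact a)).sub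
        (tendsto_const_nhds.mul (hf.zero.comp (tendsto_add_cocompact a)))
    rw [mul_zero, sub_zero] at h1
    refine h1.congr fun z => ?_
    ring

theorem Admissible.mono {M N : Set ℂ} {f : ℂ → ℂ} {A : ℂ} (hf : Admissible M f A) (h : M ⊆ N) :
    Admissible N f A where
  cont := hf.cont
  bound := hf.bound
  holo := by
    obtain ⟨K, hK, hKM, hd⟩ := hf.holo
    exact ⟨K, hK, hKM.trans h, hd⟩
  zero := hf.zero
  coeff := hf.coeff

theorem Admissible.le_alpha {M : Set ℂ} {f : ℂ → ℂ} {A : ℂ} (hf : Admissible M f A) :
    ENNReal.ofReal ‖A‖ ≤ alpha M :=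
  le_iSup_of_le f (le_iSup_of_le A (le_iSup_of_le hf le_rfl))

theorem alpha_le_iff {M : Set ℂ} {c : ENNReal} :
    alpha M ≤ c ↔ ∀ f A, Admissible M f A → ENNReal.ofReal ‖A‖ ≤ c := by
  simp only [alpha, iSup_le_iff]

/-- The continuous analytic capacity of a closed disc is its radius. -/
theorem alpha_closedBall (a : ℂ) {R : ℝ} (hR : 0 < R) :
    alpha (closedBall a R) = ENNReal.ofReal R := by
  refine le_antisymm ?_ ?_
  · rw [alpha_le_iff]
    intro f A hf
    exact ENNReal.ofReal_le_ofReal (coeff_le hf hR subset_rfl)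
  · have hmax : ∀ z : ℂ, 0 < max R ‖z - a‖ := fun z => lt_of_lt_of_le hR (le_max_left _ _)
    set f : ℂ → ℂ := fun z => (R : ℂ) * conj (z - a) / ((max R ‖z - a‖ : ℝ) : ℂ) ^ 2 with hf
    have hout : ∀ z, R ≤ ‖z - a‖ → f z = R / (z - a) := by
      intro z hz
      have hz0 : z - a ≠ 0 := norm_pos_iff.mp (hR.trans_le hz)
      have h2 : ((‖z - a‖ : ℝ) : ℂ) ≠ 0 := by
        exact_mod_cast (hR.trans_le hz).ne'
      have h1 : (z - a) * conj (z - a) = ((‖z - a‖ : ℝ) : ℂ) ^ 2 := by
        rw [Complex.mul_conj, Complex.normSq_eq_norm_sq]; push_cast; ring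
      simp only [hf]
      rw [max_eq_right hz, div_eq_div_iff (pow_ne_zero 2 h2) hz0, ← h1]
      ring
    have hadm : Admissible (closedBall a R) f R := by
      refine ⟨?_, ?_, ⟨closedBall a R, isCompact_closedBall a R, subset_rfl, ?_⟩, ?_, ?_⟩
      · refine Continuous.div ?_ ?_ ?_
        · exact continuous_const.mul (Complex.continuous_conj.comp
            (continuous_id.sub continuous_const))
        · exact (Complex.continuous_ofReal.comp
            (continuous_const.max (continuous_id.sub continuous_const).norm)).pow 2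
        · intro z
          exact pow_ne_zero 2 (by exact_mod_cast (hmax z).ne')
      · intro z
        have hn : ‖((max R ‖z - a‖ : ℝ) : ℂ)‖ = max R ‖z - a‖ := by
          rw [Complex.norm_real, Real.norm_of_nonneg (hmax z).le]
        have hn2 : ‖(R : ℂ)‖ = R := by rw [Complex.norm_real, Real.norm_of_nonneg hR.le]
        simp only [hf]
        rw [norm_div, norm_mul, norm_pow, RCLike.norm_conj, hn, hn2, div_le_one (by
          have := hmax z; positivity), sq]
        exact mul_le_mul (le_max_left _ _) (le_max_right _ _) (norm_nonneg _) (hmax z).le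
      · intro z hz
        rw [mem_compl_iff, mem_closedBall, dist_eq_norm, not_le] at hz
        have hz0 : z - a ≠ 0 := norm_pos_iff.mp (hR.trans hz)
        have h1 : DifferentiableAt ℂ (fun w : ℂ => (R : ℂ) / (w - a)) z :=
          (differentiableAt_const _).div (differentiableAt_id.sub_const a) hz0
        refine (h1.congr_of_eventuallyEq ?_).differentiableWithinAt
        have hO : IsOpen {w : ℂ | R < ‖w - a‖} :=
          isOpen_lt continuous_const (continuous_id.sub continuous_const).norm
        filter_upwards [hO.mem_nhds hz] with w hw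
        exact hout w (le_of_lt hw)
      · have hev : ∀ᶠ z in cocompact ℂ, f z = R / (z - a) := by
          have h1 := tendsto_norm_cocompact.comp (tendsto_add_cocompact (-a))
          filter_upwards [h1.eventually_ge_atTop R] with z hz
          refine hout z ?_
          simpa [sub_eq_add_neg] using hz
        have h2 : Tendsto (fun z : ℂ => (R : ℂ) * (z - a)⁻¹) (cocompact ℂ) (𝓝 (R * 0)) := by
          refine tendsto_const_nhds.mul ?_
          have h3 : Tendsto (fun z : ℂ => z⁻¹) (cocompact ℂ) (𝓝 0) := by
            rw [← Metric.cobounded_eq_cocompact]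
            exact tendsto_inv₀_cobounded
          refine (h3.comp (tendsto_add_cocompact (-a))).congr fun z => ?_
          simp [sub_eq_add_neg]
        rw [mul_zero] at h2
        refine h2.congr' ?_
        filter_upwards [hev] with z hz
        rw [hz, div_eq_mul_inv]
      · have hev : ∀ᶠ z in cocompact ℂ, z * f z = R + R * a * (z - a)⁻¹ := by
          have h1 := tendsto_norm_cocompact.comp (tendsto_add_cocompact (-a))
          filter_upwards [h1.eventually_ge_atTop R] with z hz
          have hz' : R ≤ ‖z - a‖ := by simpa [sub_eq_add_neg] using hz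
          have hz0 : z - a ≠ 0 := norm_pos_iff.mp (hR.trans_le hz')
          rw [hout z hz']
          field_simp
          ring
        have h2 : Tendsto (fun z : ℂ => (R : ℂ) + R * a * (z - a)⁻¹) (cocompact ℂ)
            (𝓝 (R + R * a * 0)) := by
          refine tendsto_const_nhds.add (tendsto_const_nhds.mul ?_)
          have h3 : Tendsto (fun z : ℂ => z⁻¹) (cocompact ℂ) (𝓝 0) := by
            rw [← Metric.cobounded_eq_cocompact]
            exact tendsto_inv₀_cobounded
          refine (h3.comp (tendsto_add_cocompact (-a))).congr fun z => ?_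
          simp [sub_eq_add_neg]
        rw [mul_zero, add_zero] at h2
        refine h2.congr' ?_
        filter_upwards [hev] with z hz
        exact hz.symm
    have := hadm.le_alpha
    rwa [Complex.norm_real, Real.norm_of_nonneg hR.le] at this

/-- Subadditivity for a set which is as large as a disc and a small set. -/
theorem subadditive_disc (a b : ℂ) (R η : ℝ) (E₁ E₂ : Set ℂ) (hη : 0 < η) (hηR : 2 * η ≤ R)
    (hd : R + 4 * η ≤ dist a b) (hE₁ : E₁ ⊆ closedBall a R) (hα : ENNReal.ofReal R ≤ alpha E₁)
    (hE₂ : E₂ ⊆ closedBall b η) : alpha (E₁ ∪ E₂) ≤ alpha E₁ + alpha E₂ := by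
  have hR : 0 < R := by linarith
  rw [alpha_le_iff]
  intro f A hf
  obtain ⟨K, hK, hKE, hKd⟩ := hf.holo
  -- move `a` to the origin
  set K' : Set ℂ := {z | z + a ∈ K} with hK'
  have hK'c : IsCompact K' := (Homeomorph.addRight a).isCompact_preimage.mpr hK
  set E : Set ℂ := K' ∩ closedBall (b - a) η with hE
  have hEc : IsCompact E := hK'c.inter_right isClosed_closedBall
  have hfK : Admissible K f A := ⟨hf.cont, hf.bound, ⟨K, hK, subset_rfl, hKd⟩, hf.zero, hf.coeff⟩
  have hsub : K' ⊆ closedBall 0 R ∪ E := by
    intro z hz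
    rcases hKE hz with h | h
    · left
      have := hE₁ h
      rw [mem_closedBall, dist_eq_norm] at this
      rw [mem_closedBall_zero_iff]
      simpa using this
    · right
      refine ⟨hz, ?_⟩
      have := hE₂ h
      rw [mem_closedBall, dist_eq_norm] at this ⊢
      have e : z - (b - a) = z + a - b := by ring
      rw [e]; exact this
  have hg : Admissible (closedBall 0 R ∪ E) (fun z => f (z + a)) A :=
    (hfK.translate a).mono hsub
  obtain ⟨H, h, hH, hA⟩ := coeff_split (b := b - a) hη hηR
    (by rw [dist_comm, dist_eq_norm] at hd; exact hd) hEc inter_subset_right hg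
  have hH2 : Admissible E₂ (fun z => H (z + -a)) h := by
    refine (hH.translate (-a)).mono ?_
    intro z hz
    simp only [mem_ofPred_eq, hE, hK', mem_inter_iff] at hz
    obtain ⟨hz1, hz2⟩ := hz
    rw [neg_add_cancel_right] at hz1
    rcases hKE hz1 with h1 | h1
    · exfalso
      have h2 := hE₁ h1
      rw [mem_closedBall, dist_eq_norm] at h2 hz2
      rw [dist_comm, dist_eq_norm] at hd
      have h3 : ‖b - a‖ ≤ ‖z - a‖ + ‖z + -a - (b - a)‖ := by
        calc ‖b - a‖ = ‖(z - a) - (z + -a - (b - a))‖ := by congr 1; ring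
          _ ≤ _ := norm_sub_le _ _
      linarith
    · exact h1
  calc ENNReal.ofReal ‖A‖ ≤ ENNReal.ofReal (R + ‖h‖) := ENNReal.ofReal_le_ofReal hA
    _ = ENNReal.ofReal R + ENNReal.ofReal ‖h‖ := ENNReal.ofReal_add hR.le (norm_nonneg _)
    _ ≤ alpha E₁ + alpha E₂ := add_le_add hα hH2.le_alpha

end Pool.Agent.Helper53.CAC
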