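import Pool.Agent.Helper53.CAC.Laurent

/-!
# Mean square estimates on the circle
-/

set_option autoImplicit false

open Filter Topology Set Metric Real MeasureTheory ComplexConjugate

namespace Pool.Agent.Helper53.CAC

theorem norm_circleAverage_le_average (F : ℂ → ℂ) (R : ℝ) :
    ‖circleAverage F 0 R‖ ≤ circleAverage (fun w => ‖F w‖) 0 R := by
  rw [circleAverage, circleAverage, norm_smul, Real.norm_of_nonneg (by positivity), smul_eq_mul]
  gcongr
  exact intervalIntegral.norm_integral_le_integral_norm two_pi_pos.le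

/-- Cauchy-Schwarz for circle averages. -/
theorem cauchy_schwarz {p q : ℂ → ℝ} {R : ℝ} (hp : ContinuousOn p (sphere 0 |R|))
    (hq : ContinuousOn q (sphere 0 |R|)) :
    (circleAverage (fun w => p w * q w) 0 R) ^ 2
      ≤ circleAverage (fun w => p w ^ 2) 0 R * circleAverage (fun w => q w ^ 2) 0 R := by
  set a := circleAverage (fun w => q w ^ 2) 0 R with ha
  set b := circleAverage (fun w => p w * q w) 0 R with hb
  set c := circleAverage (fun w => p w ^ 2) 0 R with hc
  have hI1 : CircleIntegrable (fun w => p w ^ 2) 0 R := (hp.pow 2).circleIntegrable'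
  have hI2 : CircleIntegrable (fun w => p w * q w) 0 R := (hp.mul hq).circleIntegrable'
  have hI3 : CircleIntegrable (fun w => q w ^ 2) 0 R := (hq.pow 2).circleIntegrable'
  have hdisc : discrim a (-2 * b) c ≤ 0 := by
    refine discrim_le_zero fun t => ?_
    have h1 : circleAverage (fun w => (p w - t * q w) ^ 2) 0 R
        = a * (t * t) + (-2 * b) * t + c := by
      have h2 : (fun w => (p w - t * q w) ^ 2)
          = fun w => (p w ^ 2 + (-2 * t) • (p w * q w)) + (t * t) • (q w ^ 2) := by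
        funext w; simp only [smul_eq_mul]; ring
      have hI2' : CircleIntegrable (fun w => (-2 * t) • (p w * q w)) 0 R :=
        ((hp.mul hq).const_smul (-2 * t)).circleIntegrable'
      have hI3' : CircleIntegrable (fun w => (t * t) • (q w ^ 2)) 0 R :=
        ((hq.pow 2).const_smul (t * t)).circleIntegrable'
      rw [h2, circleAverage_fun_add (hI1.fun_add hI2') hI3', circleAverage_fun_add hI1 hI2',
        circleAverage_fun_smul, circleAverage_fun_smul, ← ha, ← hb, ← hc]
      simp only [smul_eq_mul]; ring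
    rw [← h1]
    exact circleAverage_nonneg_of_nonneg fun w _ => sq_nonneg _
  rw [discrim] at hdisc
  nlinarith

/-- The Poisson identity outside of the circle. -/
theorem poisson_out {R : ℝ} (hR : 0 < R) {z : ℂ} (hz : R < ‖z‖) :
    circleAverage (fun w => (‖z - w‖⁻¹) ^ 2) 0 R = 1 / (‖z‖ ^ 2 - R ^ 2) := by
  have hne : ∀ w ∈ closedBall (0 : ℂ) R, z - w ≠ 0 := by
    intro w hw h
    have : z = w := sub_eq_zero.mp h
    rw [mem_closedBall_zero_iff, ← this] at hw
    linarith
  have habs : |R| = R := abs_of_pos hR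
  have hpos : 0 < ‖z‖ ^ 2 - R ^ 2 := by nlinarith
  have hz0 : z ≠ 0 := by rintro rfl; rw [norm_zero] at hz; linarith
  set φ : ℂ → ℂ := fun w => (z + w) / (z - w) with hφ
  have hφc : ContinuousOn φ (closedBall 0 R) :=
    (continuousOn_const.add continuousOn_id).div (continuousOn_const.sub continuousOn_id) hne
  have h1 : circleAverage φ 0 R = 1 := by
    have hd : DiffContOnCl ℂ φ (ball 0 |R|) := by
      rw [habs]
      refine ⟨?_, ?_⟩
      · exact ((differentiableOn_const _).add differentiableOn_id).div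
          ((differentiableOn_const _).sub differentiableOn_id)
          fun w hw => hne w (ball_subset_closedBall hw)
      · rw [closure_ball _ hR.ne']; exact hφc
    rw [hd.circleAverage, hφ]
    simp [hz0]
  have hIφ : CircleIntegrable φ 0 R := by
    refine ContinuousOn.circleIntegrable' ?_
    rw [habs]; exact hφc.mono sphere_subset_closedBall
  have h2 : circleAverage (fun w => (φ w).re) 0 R = 1 := by
    have := Complex.reCLM.circleAverage_comp_comm hIφ
    have h3 : (⇑Complex.reCLM ∘ φ) = fun w => (φ w).re := rfl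
    rw [h3] at this
    rw [this, h1]
    simp
  have h3 : circleAverage (fun w => (‖z - w‖⁻¹) ^ 2) 0 R
      = circleAverage (fun w => (1 / (‖z‖ ^ 2 - R ^ 2)) • (φ w).re) 0 R := by
    refine circleAverage_congr_sphere fun w hw => ?_
    rw [habs, mem_sphere_zero_iff_norm] at hw
    have hw' : z - w ≠ 0 := hne w (by rw [mem_closedBall_zero_iff, hw])
    have hn : 0 < ‖z - w‖ := norm_pos_iff.mpr hw'
    have h4 : (φ w).re = (‖z‖ ^ 2 - R ^ 2) / ‖z - w‖ ^ 2 := by
      rw [hφ, ← hw]
      simp only [Complex.div_re, Complex.sq_norm, Complex.normSq_apply, Complex.add_re,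
        Complex.sub_re, Complex.add_im, Complex.sub_im]
      rw [← add_div]
      congr 1
      ring
    simp only [h4, smul_eq_mul]
    field_simp
  rw [h3, circleAverage_fun_smul, h2]
  simp

theorem outerCoeff_le {f : ℂ → ℂ} (hb : ∀ z, ‖f z‖ ≤ 1) {R : ℝ} (hR : 0 < R) :
    ‖outerCoeff f R‖ ≤ R := by
  refine norm_circleAverage_le fun θ => ?_
  rw [norm_mul, norm_circleMap_zero' hR]
  calc R * ‖f (circleMap 0 R θ)‖ ≤ R * 1 := by gcongr; exact hb _
    _ = R := mul_one _

theorem mean_sq {f : ℂ → ℂ} (hf : Continuous f) (hb : ∀ z, ‖f z‖ ≤ 1) {R : ℝ} (hR : 0 < R) :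
    circleAverage (fun w => ‖f w - outerCoeff f R / w‖ ^ 2) 0 R
      ≤ 1 - (‖outerCoeff f R‖ / R) ^ 2 := by
  set c := outerCoeff f R with hc
  have habs : |R| = R := abs_of_pos hR
  have hI1 : CircleIntegrable (fun w => w * f w) 0 R :=
    (continuousOn_id.mul hf.continuousOn).circleIntegrable'
  have hI2 : CircleIntegrable (fun w => (conj c / R ^ 2) • (w * f w)) 0 R :=
    ((continuousOn_id.mul hf.continuousOn).const_smul (conj c / (R : ℂ) ^ 2)).circleIntegrable'
  have h1 : circleAverage (fun w => (conj c / R ^ 2) • (w * f w)) 0 R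
      = conj c / R ^ 2 * c := by
    rw [circleAverage_fun_smul, smul_eq_mul, hc, outerCoeff]
  have h2 : circleAverage (fun w => ((conj c / R ^ 2) • (w * f w)).re) 0 R
      = (‖c‖ / R) ^ 2 := by
    have h3 := Complex.reCLM.circleAverage_comp_comm hI2
    have h4 : (⇑Complex.reCLM ∘ fun w => (conj c / (R : ℂ) ^ 2) • (w * f w))
      = fun w => ((conj c / (R : ℂ) ^ 2) • (w * f w)).re := rfl
    rw [h4, h1] at h3
    rw [h3]
    have h5 : conj c / (R : ℂ) ^ 2 * c = (((‖c‖ / R) ^ 2 : ℝ) : ℂ) := by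
      rw [div_mul_eq_mul_div, mul_comm, Complex.mul_conj, Complex.normSq_eq_norm_sq]
      push_cast
      rw [div_pow]
    rw [h5]
    exact Complex.ofReal_re _
  have hI3 : CircleIntegrable (fun w => ‖f w‖ ^ 2) 0 R :=
    (hf.norm.pow 2).continuousOn.circleIntegrable'
  have hI4 : CircleIntegrable (fun w => ((conj c / (R : ℂ) ^ 2) • (w * f w)).re) 0 R :=
    (Complex.continuous_re.comp_continuousOn
      ((continuousOn_id.mul hf.continuousOn).const_smul (conj c / (R : ℂ) ^ 2))).circleIntegrable'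
  have hI5 : CircleIntegrable
      (fun w => (-2 : ℝ) • ((conj c / (R : ℂ) ^ 2) • (w * f w)).re) 0 R :=
    ((Complex.continuous_re.comp_continuousOn ((continuousOn_id.mul hf.continuousOn).const_smul
      (conj c / (R : ℂ) ^ 2))).const_smul (-2 : ℝ)).circleIntegrable'
  have h6 : circleAverage (fun w => ‖f w - c / w‖ ^ 2) 0 R
      = circleAverage (fun w => (‖f w‖ ^ 2
        + (-2 : ℝ) • ((conj c / (R : ℂ) ^ 2) • (w * f w)).re) + (‖c‖ / R) ^ 2) 0 R := by
    refine circleAverage_congr_sphere fun w hw => ?_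
    rw [habs, mem_sphere_zero_iff_norm] at hw
    have hw0 : w ≠ 0 := by
      intro h; rw [h, norm_zero] at hw; exact hR.ne hw
    have hconj : c / w = c * conj w / R ^ 2 := by
      have h7 : w * conj w = (R : ℂ) ^ 2 := by
        rw [Complex.mul_conj, Complex.normSq_eq_norm_sq, hw]; push_cast; ring
      have h8 : (R : ℂ) ^ 2 ≠ 0 := by
        have : (R : ℂ) ≠ 0 := by exact_mod_cast hR.ne'
        exact pow_ne_zero 2 this
      rw [div_eq_div_iff hw0 h8, ← h7]; ring
    have h9 : ‖c / w‖ ^ 2 = (‖c‖ / R) ^ 2 := by rw [norm_div, hw]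
    have h10 : ‖f w - c / w‖ ^ 2 = ‖f w‖ ^ 2 - 2 * (f w * conj (c / w)).re + ‖c / w‖ ^ 2 := by
      rw [Complex.sq_norm, Complex.sq_norm, Complex.sq_norm, Complex.normSq_sub]
      ring
    have h11 : f w * conj (c / w) = (conj c / (R : ℂ) ^ 2) • (w * f w) := by
      rw [hconj]
      simp only [map_div₀, map_mul, Complex.conj_conj, map_pow, Complex.conj_ofReal, smul_eq_mul]
      ring
    rw [h10, h9, h11]
    simp only [smul_eq_mul]
    ring
  rw [h6, circleAverage_fun_add (hI3.fun_add hI5) (circleIntegrable_const _ _ _),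
    circleAverage_fun_add hI3 hI5, circleAverage_fun_smul, h2, circleAverage_const]
  have h12 : circleAverage (fun w => ‖f w‖ ^ 2) 0 R ≤ 1 := by
    refine circleAverage_mono_on_of_le_circle hI3 fun w _ => ?_
    have := hb w
    have h13 := norm_nonneg (f w)
    nlinarith
  simp only [smul_eq_mul]
  linarith

/-- The basic estimate. -/
theorem kernel_bound {f : ℂ → ℂ} (hf : Continuous f) (hb : ∀ z, ‖f z‖ ≤ 1) {R : ℝ} (hR : 0 < R)
    {z : ℂ} (hz : R < ‖z‖) {K : ℂ → ℂ} {κ y : ℝ} (hκ : 0 ≤ κ) (hy : 0 ≤ y)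
    (hxy : (‖outerCoeff f R‖ / R) ^ 2 + y ^ 2 = 1)
    (hKc : ContinuousOn K (sphere 0 R)) (hK : ∀ w ∈ sphere (0 : ℂ) R, ‖K w‖ ≤ κ * ‖z - w‖⁻¹) :
    ‖circleAverage (fun w => (f w - outerCoeff f R / w) * K w) 0 R‖
      ≤ κ * y / √(‖z‖ ^ 2 - R ^ 2) := by
  have habs : |R| = R := abs_of_pos hR
  have hpos : 0 < ‖z‖ ^ 2 - R ^ 2 := by nlinarith
  set c := outerCoeff f R with hc
  have hw0 : ∀ w ∈ sphere (0 : ℂ) |R|, w ≠ 0 := by
    intro w hw h
    rw [habs, mem_sphere_zero_iff_norm, h, norm_zero] at hw; exact hR.ne hw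
  have hzw : ∀ w ∈ sphere (0 : ℂ) |R|, ‖z - w‖ ≠ 0 := by
    intro w hw h
    have h1 : z = w := sub_eq_zero.mp (norm_eq_zero.mp h)
    rw [habs, mem_sphere_zero_iff_norm, ← h1] at hw
    exact hz.ne' hw
  have hu : ContinuousOn (fun w => f w - c / w) (sphere 0 |R|) :=
    hf.continuousOn.sub (continuousOn_const.div continuousOn_id hw0)
  have hp : ContinuousOn (fun w => ‖f w - c / w‖) (sphere 0 |R|) := hu.norm
  have hq : ContinuousOn (fun w : ℂ => ‖z - w‖⁻¹) (sphere 0 |R|) :=
    ((continuousOn_const.sub continuousOn_id).norm).inv₀ hzw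
  have hKc' : ContinuousOn K (sphere 0 |R|) := by rw [habs]; exact hKc
  have h1 := norm_circleAverage_le_average (fun w => (f w - c / w) * K w) R
  have h2 : circleAverage (fun w => ‖(f w - c / w) * K w‖) 0 R
      ≤ circleAverage (fun w => κ • (‖f w - c / w‖ * ‖z - w‖⁻¹)) 0 R := by
    refine circleAverage_mono (hu.mul hKc').norm.circleIntegrable'
      ((hp.mul hq).const_smul κ).circleIntegrable' fun w hw => ?_
    rw [habs] at hw
    rw [norm_mul, smul_eq_mul]
    calc ‖f w - c / w‖ * ‖K w‖ ≤ ‖f w - c / w‖ * (κ * ‖z - w‖⁻¹) := by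
          gcongr; exact hK w hw
      _ = _ := by ring
  rw [circleAverage_fun_smul, smul_eq_mul] at h2
  have h3 := cauchy_schwarz hp hq
  have h4 := mean_sq hf hb hR
  rw [← hc] at h4
  rw [poisson_out hR hz] at h3
  have h5 : circleAverage (fun w => ‖f w - c / w‖ ^ 2) 0 R ≤ y ^ 2 := by linarith
  have h6 : (circleAverage (fun w => ‖f w - c / w‖ * ‖z - w‖⁻¹) 0 R) ^ 2
      ≤ (y / √(‖z‖ ^ 2 - R ^ 2)) ^ 2 := by
    refine h3.trans ?_
    rw [div_pow, Real.sq_sqrt hpos.le, ← mul_one_div (y ^ 2)]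
    exact mul_le_mul_of_nonneg_right h5 (by positivity)
  have h7 : circleAverage (fun w => ‖f w - c / w‖ * ‖z - w‖⁻¹) 0 R
      ≤ y / √(‖z‖ ^ 2 - R ^ 2) := by
    refine (abs_le_of_sq_le_sq' h6 (by positivity)).2
  calc ‖circleAverage (fun w => (f w - c / w) * K w) 0 R‖
      ≤ κ * circleAverage (fun w => ‖f w - c / w‖ * ‖z - w‖⁻¹) 0 R := h1.trans h2
    _ ≤ κ * (y / √(‖z‖ ^ 2 - R ^ 2)) := by gcongr
    _ = _ := by ring

end Pool.Agent.Helper53.CAC
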