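import Mathlib

/-!
# Continuous analytic capacity

Definition of the continuous analytic capacity, as in the problem.
-/

set_option autoImplicit false

open Filter Topology Set

namespace Pool.Agent.Helper53.CAC

/-- `f` is an admissible function for the set `M` with coefficient `a` at infinity: `f` is
continuous on the whole plane, bounded by `1`, holomorphic off some compact subset `K` of `M`,
tends to `0` at infinity, and `z * f z` tends to `a` at infinity. -/
structure Admissible (M : Set ℂ) (f : ℂ → ℂ) (a : ℂ) : Prop where
  cont : Continuous f
  bound : ∀ z, ‖f z‖ ≤ 1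
  holo : ∃ K : Set ℂ, IsCompact K ∧ K ⊆ M ∧ DifferentiableOn ℂ f Kᶜ
  zero : Tendsto f (cocompact ℂ) (𝓝 0)
  coeff : Tendsto (fun z => z * f z) (cocompact ℂ) (𝓝 a)

/-- The continuous analytic capacity of `M`: the supremum of `|a|` over all admissible functions
for `M`, with `a` the coefficient at infinity. -/
noncomputable def alpha (M : Set ℂ) : ENNReal :=
  ⨆ (f : ℂ → ℂ) (a : ℂ) (_ : Admissible M f a), ENNReal.ofReal ‖a‖

end Pool.Agent.Helper53.CAC
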