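import Pool.Agent.Helper53.CAC.Mobius

/-!
# Splitting off the part of a function which comes from a disc
-/

set_option autoImplicit false

open Filter Topology Set Metric Real MeasureTheory

namespace Pool.Agent.Helper53.CAC

/-- The part of `f` outside the circle `|w| = R` which comes from the disc. -/
noncomputable def outer (f : ℂ → ℂ) (R : ℝ) (z : ℂ) : ℂ :=
  circleAverage (fun w => w / (z - w) * f w) 0 R

/-- The coefficient at infinity of `outer f R`. -/
noncomputable def outerCoeff (f : ℂ → ℂ) (R : ℝ) : ℂ :=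
  circleAverage (fun w => w * f w) 0 R

theorem norm_circleMap_zero' {R : ℝ} (hR : 0 < R) (θ : ℝ) : ‖circleMap 0 R θ‖ = R := by
  rw [norm_circleMap_zero, abs_of_pos hR]

theorem sub_circleMap_norm {R : ℝ} (hR : 0 < R) (z : ℂ) (θ : ℝ) :
    ‖z‖ - R ≤ ‖z - circleMap 0 R θ‖ := by
  have := norm_sub_norm_le z (circleMap 0 R θ)
  rwa [norm_circleMap_zero' hR] at this

theorem sub_circleMap_ne {R : ℝ} (hR : 0 < R) {z : ℂ} (hz : R < ‖z‖) (θ : ℝ) :
    z - circleMap 0 R θ ≠ 0 := by
  intro h
  have := sub_circleMap_norm hR z θ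
  rw [h, norm_zero] at this
  linarith

/-- Bound of a circle average by a constant. -/
theorem norm_circleAverage_le {f : ℂ → ℂ} {R C : ℝ} (hC : ∀ θ, ‖f (circleMap 0 R θ)‖ ≤ C) :
    ‖circleAverage f 0 R‖ ≤ C := by
  rw [circleAverage, norm_smul, Real.norm_of_nonneg (by positivity)]
  have := intervalIntegral.norm_integral_le_of_norm_le_const (a := 0) (b := 2 * π) (C := C)
    (f := fun θ => f (circleMap 0 R θ)) (fun θ _ => hC θ)
  rw [sub_zero, abs_of_pos two_pi_pos] at this
  calc (2 * π)⁻¹ * ‖∫ θ in 0..2 * π, f (circleMap 0 R θ)‖ ≤ (2 * π)⁻¹ * (C * (2 * π)) := by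
        gcongr
    _ = C := by field_simp

theorem outer_differentiableOn {f : ℂ → ℂ} (hf : Continuous f) (hb : ∀ z, ‖f z‖ ≤ 1) {R : ℝ}
    (hR : 0 < R) : DifferentiableOn ℂ (outer f R) {z | R < ‖z‖} := by
  intro z₀ hz₀
  simp only [mem_ofPred_eq] at hz₀
  refine DifferentiableAt.differentiableWithinAt ?_
  set ε := (‖z₀‖ - R) / 2 with hε
  have hε0 : 0 < ε := by rw [hε]; linarith
  have hball : ∀ z ∈ ball z₀ ε, ε ≤ ‖z‖ - R := by
    intro z hz
    rw [mem_ball, dist_eq_norm] at hz
    have := norm_sub_norm_le z₀ z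
    rw [norm_sub_rev] at this
    linarith
  have hne : ∀ z ∈ ball z₀ ε, ∀ θ, z - circleMap 0 R θ ≠ 0 := by
    intro z hz θ
    exact sub_circleMap_ne hR (by have := hball z hz; linarith) θ
  have hcont : ∀ z ∈ ball z₀ ε,
      Continuous fun θ => circleMap 0 R θ / (z - circleMap 0 R θ) * f (circleMap 0 R θ) := by
    intro z hz
    exact (((continuous_circleMap 0 R).div (continuous_const.sub (continuous_circleMap 0 R))
      (hne z hz))).mul (hf.comp (continuous_circleMap 0 R))
  have h := (intervalIntegral.hasDerivAt_integral_of_dominated_loc_of_deriv_le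
    (μ := volume) (a := 0) (b := 2 * π)
    (F := fun (z : ℂ) (θ : ℝ) => circleMap 0 R θ / (z - circleMap 0 R θ) * f (circleMap 0 R θ))
    (F' := fun (z : ℂ) (θ : ℝ) =>
      -(circleMap 0 R θ / (z - circleMap 0 R θ) ^ 2 * f (circleMap 0 R θ)))
    (x₀ := z₀) (s := ball z₀ ε) (bound := fun _ => R / ε ^ 2) (ball_mem_nhds _ hε0) ?_ ?_ ?_ ?_ ?_
    ?_).2
  · exact (h.const_smul ((2 * π)⁻¹ : ℝ)).differentiableAt
  · filter_upwards [ball_mem_nhds z₀ hε0] with z hz
    exact (hcont z hz).aestronglyMeasurable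
  · exact (hcont z₀ (mem_ball_self hε0)).intervalIntegrable _ _
  · refine Continuous.aestronglyMeasurable ?_
    exact (((continuous_circleMap 0 R).div
      ((continuous_const.sub (continuous_circleMap 0 R)).pow 2)
      (fun θ => pow_ne_zero 2 (hne z₀ (mem_ball_self hε0) θ))).mul
        (hf.comp (continuous_circleMap 0 R))).neg
  · refine Eventually.of_forall fun θ _ z hz => ?_
    have h1 : ε ≤ ‖z - circleMap 0 R θ‖ := (hball z hz).trans (sub_circleMap_norm hR z θ)
    rw [norm_neg, norm_mul, norm_div, norm_pow, norm_circleMap_zero' hR]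
    calc R / ‖z - circleMap 0 R θ‖ ^ 2 * ‖f (circleMap 0 R θ)‖ ≤ R / ε ^ 2 * 1 := by
          gcongr
          exact hb _
      _ = R / ε ^ 2 := mul_one _
  · exact intervalIntegrable_const
  · refine Eventually.of_forall fun θ _ z hz => ?_
    have h1 : HasDerivAt (fun z : ℂ => z - circleMap 0 R θ) 1 z := (hasDerivAt_id z).sub_const _
    have h2 := ((h1.inv (hne z hz θ)).const_mul (circleMap 0 R θ)).mul_const
      (f (circleMap 0 R θ))
    refine h2.congr_deriv ?_ |>.congr_of_eventuallyEq ?_
    · field_simp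
    · refine Eventually.of_forall fun z => ?_
      simp only [Pi.inv_apply]
      ring

theorem outer_sub_coeff {f : ℂ → ℂ} (hf : Continuous f) (hb : ∀ z, ‖f z‖ ≤ 1) {R : ℝ}
    (hR : 0 < R) {z : ℂ} (hz : R < ‖z‖) :
    ‖z * outer f R z - outerCoeff f R‖ ≤ R ^ 2 / (‖z‖ - R) := by
  have hne : ∀ w ∈ sphere (0 : ℂ) |R|, z - w ≠ 0 := by
    intro w hw h
    rw [abs_of_pos hR, mem_sphere_zero_iff_norm] at hw
    have : z = w := sub_eq_zero.mp h
    rw [this, hw] at hz
    exact lt_irrefl _ hz
  have h1 : CircleIntegrable (fun w => z • (w / (z - w) * f w)) 0 R := by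
    refine ContinuousOn.circleIntegrable' ?_
    have h0 : ContinuousOn (fun w : ℂ => w / (z - w) * f w) (sphere 0 |R|) :=
      (continuousOn_id.div (continuousOn_const.sub continuousOn_id) hne).mul hf.continuousOn
    exact h0.const_smul z
  have h2 : CircleIntegrable (fun w => w * f w) 0 R :=
    ContinuousOn.circleIntegrable' (continuousOn_id.mul hf.continuousOn)
  have h3 : z * outer f R z - outerCoeff f R
      = circleAverage (fun w => w ^ 2 / (z - w) * f w) 0 R := by
    rw [outer, outerCoeff, ← smul_eq_mul, ← circleAverage_fun_smul, ← circleAverage_fun_sub h1 h2]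
    refine circleAverage_congr_sphere fun w hw => ?_
    have := hne w hw
    simp only [smul_eq_mul]
    field_simp
    ring
  rw [h3]
  refine norm_circleAverage_le fun θ => ?_
  rw [norm_mul, norm_div, norm_pow, norm_circleMap_zero' hR]
  have h4 := sub_circleMap_norm hR z θ
  have h5 : 0 < ‖z‖ - R := by linarith
  calc R ^ 2 / ‖z - circleMap 0 R θ‖ * ‖f (circleMap 0 R θ)‖ ≤ R ^ 2 / (‖z‖ - R) * 1 := by
        gcongr
        exact hb _
    _ = _ := mul_one _

theorem tendsto_norm_cocompact : Tendsto (fun z : ℂ => ‖z‖) (cocompact ℂ) atTop :=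
  tendsto_norm_cocompact_atTop

theorem outer_tendsto_coeff {f : ℂ → ℂ} (hf : Continuous f) (hb : ∀ z, ‖f z‖ ≤ 1) {R : ℝ}
    (hR : 0 < R) : Tendsto (fun z => z * outer f R z) (cocompact ℂ) (𝓝 (outerCoeff f R)) := by
  rw [tendsto_iff_norm_sub_tendsto_zero]
  have h1 : Tendsto (fun z : ℂ => R ^ 2 / (‖z‖ - R)) (cocompact ℂ) (𝓝 0) := by
    refine Tendsto.div_atTop tendsto_const_nhds ?_
    exact tendsto_atTop_add_const_right _ (-R) tendsto_norm_cocompact
  refine squeeze_zero' (Eventually.of_forall fun z => norm_nonneg _) ?_ h1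
  filter_upwards [tendsto_norm_cocompact.eventually_gt_atTop R] with z hz
  exact outer_sub_coeff hf hb hR hz

theorem outer_tendsto_zero {f : ℂ → ℂ} (hf : Continuous f) (hb : ∀ z, ‖f z‖ ≤ 1) {R : ℝ}
    (hR : 0 < R) : Tendsto (outer f R) (cocompact ℂ) (𝓝 0) := by
  have h1 : Tendsto (fun z : ℂ => z⁻¹) (cocompact ℂ) (𝓝 0) := by
    rw [← Metric.cobounded_eq_cocompact]
    exact tendsto_inv₀_cobounded
  have h2 := h1.mul (outer_tendsto_coeff hf hb hR)
  rw [zero_mul] at h2
  refine h2.congr' ?_
  filter_upwards [tendsto_norm_cocompact.eventually_gt_atTop 0] with z hz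
  have : z ≠ 0 := norm_pos_iff.mp hz
  field_simp

/-- The Cauchy integral over the circle `|w| = s`. -/
noncomputable def inner (f : ℂ → ℂ) (s : ℝ) (z : ℂ) : ℂ :=
  (2 * π * Complex.I : ℂ)⁻¹ • ∮ w in C(0, s), (w - z)⁻¹ • f w

theorem inner_differentiableOn {f : ℂ → ℂ} (hf : Continuous f) {s : ℝ} (hs : 0 < s) :
    DifferentiableOn ℂ (inner f s) (ball 0 s) := by
  lift s to NNReal using hs.le
  have h := hasFPowerSeriesOn_cauchy_integral (c := 0) (R := s)
    (hf.continuousOn.circleIntegrable' : CircleIntegrable f 0 s) (by exact_mod_cast hs)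
  have h2 := h.differentiableOn
  rw [Metric.eball_coe] at h2
  exact h2

theorem outer_eq_integral {f : ℂ → ℂ} {R : ℝ} (hR : 0 < R) {z : ℂ} (hz : R < ‖z‖) :
    outer f R z = -((2 * π * Complex.I : ℂ)⁻¹ • ∮ w in C(0, R), (w - z)⁻¹ • f w) := by
  rw [outer, circleAverage_eq_circleIntegral hR.ne', ← smul_neg]
  congr 1
  rw [neg_eq_neg_one_mul, ← circleIntegral.integral_const_mul]
  refine circleIntegral.integral_congr hR.le fun w hw => ?_
  rw [mem_sphere_zero_iff_norm] at hw
  have hw0 : w ≠ 0 := by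
    intro h; rw [h, norm_zero] at hw; exact hR.ne hw
  have h1 : w - z ≠ 0 := by
    intro h
    have : w = z := sub_eq_zero.mp h
    rw [← this, hw] at hz
    exact lt_irrefl _ hz
  have h2 : z - w ≠ 0 := by
    intro h; apply h1; rw [← neg_sub, h, neg_zero]
  have h3 : z - w = -(w - z) := by ring
  simp only [sub_zero, smul_eq_mul, h3, div_neg]
  field_simp

/-- The Laurent decomposition in the annulus between the disc and the rest of the set. -/
theorem laurent {f : ℂ → ℂ} (hf : Continuous f) {R s : ℝ} (hR : 0 < R)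
    (hd : ∀ w, R < ‖w‖ → ‖w‖ < s → DifferentiableAt ℂ f w) {z : ℂ} (hz : R < ‖z‖)
    (hzs : ‖z‖ < s) : f z = inner f s z + outer f R z := by
  have hs : 0 < s := hR.trans (hz.trans hzs)
  have hcont : Continuous (dslope f z) := by
    rw [continuous_iff_continuousAt]
    intro w
    by_cases hw : w = z
    · rw [hw]; exact continuousAt_dslope_same.mpr (hd z hz hzs)
    · exact (continuousAt_dslope_of_ne hw).mpr hf.continuousAt
  have key : (∮ w in C(0, s), dslope f z w) = ∮ w in C(0, R), dslope f z w := by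
    refine Complex.circleIntegral_eq_of_differentiable_on_annulus_off_countable hR
      (hz.trans hzs).le (countable_singleton z) hcont.continuousOn ?_
    rintro w ⟨⟨hw1, hw2⟩, hw3⟩
    rw [mem_ball_zero_iff] at hw1
    rw [mem_closedBall_zero_iff, not_le] at hw2
    exact (differentiableAt_dslope_of_ne hw3).mpr (hd w hw2 hw1)
  have hsplit : ∀ r : ℝ, 0 < r → (∀ w ∈ sphere (0 : ℂ) r, w ≠ z) →
      (∮ w in C(0, r), dslope f z w) = (∮ w in C(0, r), (w - z)⁻¹ • f w)
        - (∮ w in C(0, r), (w - z)⁻¹) * f z := by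
    intro r hr hne
    have hc : ContinuousOn (fun w : ℂ => (w - z)⁻¹) (sphere 0 r) :=
      (continuousOn_id.sub continuousOn_const).inv₀ fun w hw => sub_ne_zero.mpr (hne w hw)
    have i1 : CircleIntegrable (fun w => (w - z)⁻¹ • f w) 0 r :=
      (hc.smul hf.continuousOn).circleIntegrable hr.le
    have i2 : CircleIntegrable (fun w => (w - z)⁻¹ * f z) 0 r :=
      (hc.mul continuousOn_const).circleIntegrable hr.le
    have h1 : (∮ w in C(0, r), (w - z)⁻¹) * f z = ∮ w in C(0, r), (w - z)⁻¹ * f z := by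
      have := circleIntegral.integral_smul_const (fun w : ℂ => (w - z)⁻¹) (f z) 0 r
      simpa [smul_eq_mul] using this.symm
    rw [h1, ← circleIntegral.integral_sub i1 i2]
    refine circleIntegral.integral_congr hr.le fun w hw => ?_
    rw [dslope_of_ne _ (hne w hw), slope_def_module]
    simp only [smul_eq_mul]
    ring
  rw [hsplit s hs, hsplit R hR, circleIntegral.integral_sub_inv_of_mem_ball] at key
  · have hout : (∮ w in C(0, R), (w - z)⁻¹) = 0 := by
      refine Complex.circleIntegral_eq_zero_of_differentiable_on_off_countable hR.le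
        countable_empty ?_ ?_
      · refine (continuousOn_id.sub continuousOn_const).inv₀ fun w hw => sub_ne_zero.mpr ?_
        rintro rfl
        rw [mem_closedBall_zero_iff] at hw
        simp only [id] at hz
        linarith
      · rintro w ⟨hw, -⟩
        refine (differentiableAt_id.sub_const z).inv (sub_ne_zero.mpr ?_)
        rintro rfl
        rw [mem_ball_zero_iff] at hw
        simp only [id] at hz
        linarith
    rw [hout, zero_mul, sub_zero] at key
    rw [outer_eq_integral hR hz, inner, ← key]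
    have hpi : (2 * π * Complex.I : ℂ) ≠ 0 := by simp [Complex.I_ne_zero, Real.pi_ne_zero]
    simp only [smul_eq_mul]
    field_simp
    ring
  · rw [mem_ball_zero_iff]; exact hzs
  · intro w hw h
    rw [mem_sphere_zero_iff_norm, h] at hw
    exact hz.ne' hw
  · intro w hw h
    rw [mem_sphere_zero_iff_norm, h] at hw
    exact hzs.ne hw

/-- The remaining part of `f`, which is holomorphic off `E`. -/
theorem split_part {f : ℂ → ℂ} (hf : Continuous f) (hb : ∀ z, ‖f z‖ ≤ 1) {R ρ : ℝ} (hR : 0 < R)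
    (hRρ : R < ρ) {E : Set ℂ} (hE : IsClosed E) (hEρ : ∀ z ∈ E, ρ ≤ ‖z‖)
    (hd : DifferentiableOn ℂ f (closedBall 0 R ∪ E)ᶜ) (hz : Tendsto f (cocompact ℂ) (𝓝 0))
    {A : ℂ} (hA : Tendsto (fun z => z * f z) (cocompact ℂ) (𝓝 A)) :
    ∃ f₂ : ℂ → ℂ, Continuous f₂ ∧ DifferentiableOn ℂ f₂ Eᶜ ∧
      (∀ z ∈ E, f₂ z = f z - outer f R z) ∧ Tendsto f₂ (cocompact ℂ) (𝓝 0) ∧
      Tendsto (fun z => z * f₂ z) (cocompact ℂ) (𝓝 (A - outerCoeff f R)) := by
  classical
  have hopen : IsOpen (closedBall 0 R ∪ E)ᶜ := (isClosed_closedBall.union hE).isOpen_compl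
  have hdAt : ∀ w, R < ‖w‖ → w ∉ E → DifferentiableAt ℂ f w := by
    intro w hw hwE
    refine hd.differentiableAt (hopen.mem_nhds ?_)
    rintro (h | h)
    · rw [mem_closedBall_zero_iff] at h; linarith
    · exact hwE h
  have hρ0 : 0 < ρ := hR.trans hRρ
  set f₂ : ℂ → ℂ := fun z => if ‖z‖ < ρ then inner f ρ z else f z - outer f R z with hf₂
  have hlau : ∀ z, R < ‖z‖ → f₂ z = f z - outer f R z := by
    intro z hz
    by_cases h : ‖z‖ < ρ
    · have h1 := laurent hf hR (s := ρ) (fun w hw1 hw2 => hdAt w hw1 fun hwE => by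
        have := hEρ w hwE; linarith) hz h
      simp only [hf₂, if_pos h]
      rw [h1]; ring
    · simp only [hf₂, if_neg h]
  have hin : ∀ z, ‖z‖ < ρ → f₂ z = inner f ρ z := fun z h => by simp only [hf₂, if_pos h]
  have hO1 : IsOpen {z : ℂ | ‖z‖ < ρ} := isOpen_lt continuous_norm continuous_const
  have hO2 : IsOpen {z : ℂ | R < ‖z‖} := isOpen_lt continuous_const continuous_norm
  have hdin : ∀ z, ‖z‖ < ρ → DifferentiableAt ℂ f₂ z := by
    intro z hz
    have h1 : DifferentiableAt ℂ (inner f ρ) z :=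
      (inner_differentiableOn hf hρ0).differentiableAt
        (isOpen_ball.mem_nhds (by rw [mem_ball_zero_iff]; exact hz))
    refine h1.congr_of_eventuallyEq ?_
    filter_upwards [hO1.mem_nhds hz] with w hw
    exact hin w hw
  have hdout : ∀ z, R < ‖z‖ → DifferentiableAt ℂ (outer f R) z := fun z hz =>
    (outer_differentiableOn hf hb hR).differentiableAt (hO2.mem_nhds hz)
  have hevinf : ∀ᶠ z in cocompact ℂ, f₂ z = f z - outer f R z := by
    filter_upwards [tendsto_norm_cocompact.eventually_gt_atTop R] with z hz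
    exact hlau z hz
  refine ⟨f₂, ?_, ?_, ?_, ?_, ?_⟩
  · rw [continuous_iff_continuousAt]
    intro z
    by_cases h : ‖z‖ < ρ
    · exact (hdin z h).continuousAt
    · have hz' : R < ‖z‖ := by push Not at h; linarith
      have h1 : ContinuousAt (fun z => f z - outer f R z) z :=
        hf.continuousAt.sub (hdout z hz').continuousAt
      refine h1.congr ?_
      filter_upwards [hO2.mem_nhds hz'] with w hw
      exact (hlau w hw).symm
  · intro z hzE
    refine DifferentiableAt.differentiableWithinAt ?_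
    by_cases h : ‖z‖ < ρ
    · exact hdin z h
    · have hz' : R < ‖z‖ := by push Not at h; linarith
      have h1 : DifferentiableAt ℂ (fun z => f z - outer f R z) z :=
        (hdAt z hz' hzE).sub (hdout z hz')
      refine h1.congr_of_eventuallyEq ?_
      filter_upwards [hO2.mem_nhds hz'] with w hw
      exact hlau w hw
  · intro z hzE
    exact hlau z (by have := hEρ z hzE; linarith)
  · have h1 : Tendsto (fun z => f z - outer f R z) (cocompact ℂ) (𝓝 (0 - 0)) :=
      hz.sub (outer_tendsto_zero hf hb hR)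
    rw [sub_zero] at h1
    refine h1.congr' ?_
    filter_upwards [hevinf] with z hz
    exact hz.symm
  · have h1 := hA.sub (outer_tendsto_coeff hf hb hR)
    refine h1.congr' ?_
    filter_upwards [hevinf] with z hz
    rw [hz]; ring

end Pool.Agent.Helper53.CAC
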