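import Mathlib

/-!
# The final inequality
-/

set_option autoImplicit false

namespace Pool.Agent.Helper53.CAC

/-- The quadratic form. -/
theorem quad_form {u p m k σ x y τ ξ ρ : ℝ} (hu : 0 < u) (hp : 0 < p) (hm : 0 ≤ m) (hk : 0 ≤ k)
    (hσ : 0 < σ) (hx : 0 ≤ x) (hy : 0 ≤ y) (hxy : x ^ 2 + y ^ 2 = 1)
    (hmp : m = u * (1 + m) * p)
    (hτ : u * σ ^ 2 ≤ τ) (hξ : k * (1 + 2 * m * p) + 2 * p ≤ ξ) (hρ : ρ ≤ 1 - u * (1 + m) - m ^ 2)
    (hρ0 : 0 ≤ ρ) (h1 : τ * ξ ^ 2 ≤ 3 / 2 * ρ)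
    (h2 : u * m * p + k * u * p * σ + k ^ 2 * u * p ^ 2 * σ ^ 2 ≤ 1 / 8) :
    u * ((m * p * x + k * p * σ * y) + (m * p * x + k * p * σ * y) ^ 2
      - (p ^ 2 * x ^ 2 - 2 * p ^ 2 * σ * x * y)) ≤ 1 - x := by
  have hx1 : x ≤ 1 := by nlinarith
  have hy1 : y ≤ 1 := by nlinarith
  have hx2 : x ≤ x ^ 2 + y ^ 2 := by rw [hxy]; exact hx1
  have hxy1 : 1 ≤ x + y := by nlinarith [mul_nonneg hx hy]
  have hy2 : y ≤ x * y + y ^ 2 := by nlinarith
  have h1x : y ^ 2 / 2 ≤ 1 - x := by nlinarith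
  set Ξ := k * (1 + 2 * m * p) + 2 * p with hΞ
  set Ρ := 1 - u * (1 + m) - m ^ 2 with hΡ
  have hΞ0 : 0 ≤ Ξ := by positivity
  have hcoef : 0 ≤ u * m * p := by positivity
  have hcoef2 : 0 ≤ u * k * p * σ := by positivity
  -- linear terms
  have hlin1 : u * m * p * x ≤ u * m * p * (x ^ 2 + y ^ 2) := mul_le_mul_of_nonneg_left hx2 hcoef
  have hlin2 : u * k * p * σ * y ≤ u * k * p * σ * (x * y + y ^ 2) :=
    mul_le_mul_of_nonneg_left hy2 hcoef2
  have hmp2 : u * m * p = u * p ^ 2 * (u * (1 + m)) := by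
    calc u * m * p = u * (u * (1 + m) * p) * p := by rw [← hmp]
      _ = _ := by ring
  -- the discriminant
  have hdisc : 2 / 3 * (u * σ ^ 2 * Ξ ^ 2) ≤ Ρ := by
    have h3 : u * σ ^ 2 * Ξ ^ 2 ≤ τ * ξ ^ 2 := by
      have : 0 ≤ u * σ ^ 2 := by positivity
      have h0τ : 0 ≤ τ := this.trans hτ
      gcongr
    linarith
  have hdisc2 : 2 / 3 * (u * p * σ * Ξ) ^ 2 * x ^ 2 ≤ u * p ^ 2 * Ρ * x ^ 2 := by
    have h4 : 0 ≤ u * p ^ 2 * x ^ 2 := by positivity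
    have h5 := mul_le_mul_of_nonneg_left hdisc h4
    calc 2 / 3 * (u * p * σ * Ξ) ^ 2 * x ^ 2
        = u * p ^ 2 * x ^ 2 * (2 / 3 * (u * σ ^ 2 * Ξ ^ 2)) := by ring
      _ ≤ u * p ^ 2 * x ^ 2 * Ρ := h5
      _ = _ := by ring
  have hsq : 0 ≤ 3 / 8 * (y - 4 / 3 * (u * p * σ * Ξ) * x) ^ 2 := by positivity
  have hZ : (u * m * p + k * u * p * σ + k ^ 2 * u * p ^ 2 * σ ^ 2) * y ^ 2 ≤ 1 / 8 * y ^ 2 :=
    mul_le_mul_of_nonneg_right h2 (by positivity)
  have hexp : u * ((m * p * x + k * p * σ * y) + (m * p * x + k * p * σ * y) ^ 2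
      - (p ^ 2 * x ^ 2 - 2 * p ^ 2 * σ * x * y))
      = u * m * p * x + u * k * p * σ * y + u * m ^ 2 * p ^ 2 * x ^ 2
        + 2 * u * m * k * p ^ 2 * σ * x * y + k ^ 2 * u * p ^ 2 * σ ^ 2 * y ^ 2
        - u * p ^ 2 * x ^ 2 + 2 * u * p ^ 2 * σ * x * y := by ring
  rw [hexp]
  have hX : u * m * p * x ^ 2 + u * m ^ 2 * p ^ 2 * x ^ 2 - u * p ^ 2 * x ^ 2
      = - (u * p ^ 2 * Ρ * x ^ 2) := by
    rw [hmp2, hΡ]; ring
  have hY : u * k * p * σ * (x * y) + 2 * u * m * k * p ^ 2 * σ * x * y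
      + 2 * u * p ^ 2 * σ * x * y = u * p * σ * Ξ * x * y := by
    rw [hΞ]; ring
  have hfin : - (u * p ^ 2 * Ρ * x ^ 2) + u * p * σ * Ξ * x * y - 3 / 8 * y ^ 2 ≤ 0 := by
    have : - (u * p ^ 2 * Ρ * x ^ 2) + u * p * σ * Ξ * x * y - 3 / 8 * y ^ 2
        = - (3 / 8 * (y - 4 / 3 * (u * p * σ * Ξ) * x) ^ 2)
          + (2 / 3 * (u * p * σ * Ξ) ^ 2 * x ^ 2 - u * p ^ 2 * Ρ * x ^ 2) := by ring
    rw [this]; linarith
  nlinarith [hlin1, hlin2, hX, hY, hfin, hZ, h1x]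

theorem sigma_bound {u σ M : ℝ} (hu : 0 < u) (hM : 1 + 3 * u ≤ M) (hσ : σ ^ 2 = 1 / (M ^ 2 - 1)) :
    u * σ ^ 2 ≤ 1 / (6 + 9 * u) := by
  have h1 : 0 < M ^ 2 - 1 := by nlinarith
  rw [hσ, mul_one_div, div_le_div_iff₀ h1 (by positivity)]
  nlinarith

/-- The inequality in normalised variables. -/
theorem norm_ineq {u P M x y h β σ : ℝ} (hu : 0 < u) (hu2 : u ≤ 1 / 2) (hP : 1 + 4 * u ≤ P)
    (hMP : M = P - u) (hx : 0 ≤ x) (hy : 0 ≤ y) (hxy : x ^ 2 + y ^ 2 = 1) (hσ0 : 0 < σ)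
    (hσ : σ ^ 2 = 1 / (M ^ 2 - 1)) (hβ0 : 0 ≤ β) (hβ : x / P - y * σ / P ≤ β) (hh0 : 0 ≤ h)
    (hh : h ≤ u) :
    x + h * ((1 + (u / M / P * x + (u * (1 / M + 1 / (P - 1))) / P * σ * y))
      - β ^ 2 / (1 + (u / M / P * x + (u * (1 / M + 1 / (P - 1))) / P * σ * y))) ≤ 1 + h := by
  have hP1 : 1 < P := by linarith
  have hP0 : 0 < P := by linarith
  have hM3 : 1 + 3 * u ≤ M := by linarith
  have hM0 : 0 < M := by linarith
  set p := 1 / P with hp
  set m := u / M with hm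
  set k := u * (1 / M + 1 / (P - 1)) with hk
  have hp0 : 0 < p := by positivity
  have hm0 : 0 ≤ m := by positivity
  have hP10 : 0 < P - 1 := by linarith
  have hk0 : 0 ≤ k := by positivity
  rw [show m / P * x + k / P * σ * y = m * p * x + k * p * σ * y by rw [hp]; ring]
  set ω := m * p * x + k * p * σ * y with hωd
  have hω0 : 0 ≤ ω := by positivity
  have hβ2 : p ^ 2 * x ^ 2 - 2 * p ^ 2 * σ * x * y ≤ β ^ 2 := by
    have h1 : p * (x - σ * y) ≤ β := by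
      have : p * (x - σ * y) = x / P - y * σ / P := by rw [hp]; ring
      rw [this]; exact hβ
    rcases le_or_gt 0 (x - σ * y) with h2 | h2
    · have h3 : 0 ≤ p * (x - σ * y) := mul_nonneg hp0.le h2
      have h4 : (p * (x - σ * y)) ^ 2 ≤ β ^ 2 := by gcongr
      nlinarith [sq_nonneg (p * (σ * y))]
    · have h5 : x * (x - σ * y) ≤ 0 := mul_nonpos_of_nonneg_of_nonpos hx h2.le
      have h6 : 0 ≤ p ^ 2 := by positivity
      have h7 : 0 ≤ σ * x * y := by positivity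
      have h8 : p ^ 2 * x ^ 2 - 2 * p ^ 2 * σ * x * y
          = p ^ 2 * (x * (x - σ * y)) - p ^ 2 * (σ * x * y) := by ring
      rw [h8]
      nlinarith [mul_nonneg h6 h7, mul_nonneg h6 (neg_nonneg.mpr h5), sq_nonneg β]
  have hmp : m = u * (1 + m) * p := by
    have hMP' : M = P - u := hMP
    have hM0' : P - u ≠ 0 := by rw [← hMP']; exact hM0.ne'
    rw [hm, hp, hMP']
    field_simp
    ring
  -- bounds on the parameters
  have hT := sigma_bound hu hM3 hσ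
  have huP1 : u / (P - 1) ≤ 1 / 4 := by
    rw [div_le_div_iff₀ hP10 (by norm_num)]; linarith
  have hkeq : k = m + u / (P - 1) := by rw [hk, hm]; ring
  have hmain : u * ((m * p * x + k * p * σ * y) + (m * p * x + k * p * σ * y) ^ 2
      - (p ^ 2 * x ^ 2 - 2 * p ^ 2 * σ * x * y)) ≤ 1 - x := by
    rcases le_total u (1 / 5) with hc | hc
    · -- first case
      have hm1 : m ≤ 1 / 8 := by
        rw [hm, div_le_div_iff₀ hM0 (by norm_num)]; linarith
      have hk1 : k ≤ 3 / 8 := by rw [hkeq]; linarith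
      have hp1 : p ≤ 1 := by rw [hp, div_le_one hP0]; linarith
      have hup : u * p ≤ 1 / 9 := by
        rw [hp, mul_one_div, div_le_div_iff₀ hP0 (by norm_num)]; linarith
      have hT1 : u * σ ^ 2 ≤ 1 / 6 := by
        refine hT.trans ?_
        rw [div_le_div_iff₀ (by positivity) (by norm_num)]; linarith
      have huσ : u * σ ≤ 37 / 200 := by
        have h3 : (u * σ) ^ 2 ≤ (37 / 200) ^ 2 := by
          calc (u * σ) ^ 2 = u * (u * σ ^ 2) := by ring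
            _ ≤ 1 / 5 * (1 / 6) := by gcongr
            _ ≤ _ := by norm_num
        exact (sq_le_sq₀ (by positivity) (by norm_num)).mp h3
      refine quad_form (τ := 1 / 6) (ξ := 247 / 100) (ρ := 759 / 1000) hu hp0 hm0 hk0 hσ0 hx hy
        hxy hmp hT1 ?_ ?_ (by norm_num) (by norm_num) ?_
      · have h4 : m * p ≤ 1 / 8 * 1 := by gcongr
        have h5 : k * (1 + 2 * m * p) ≤ 3 / 8 * (1 + 2 * (1 / 8)) := by
          have : 1 + 2 * m * p ≤ 1 + 2 * (1 / 8) := by linarith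
          gcongr
        linarith
      · have h6 : u * (1 + m) ≤ 1 / 5 * (1 + 1 / 8) := by gcongr
        have h7 : m ^ 2 ≤ (1 / 8) ^ 2 := by gcongr
        linarith
      · have h8 : u * m * p ≤ 1 / 72 := by
          calc u * m * p = m * (u * p) := by ring
            _ ≤ 1 / 8 * (1 / 9) := by gcongr
            _ = _ := by norm_num
        have h9 : k * u * p * σ ≤ 3 / 8 * (37 / 200) * 1 := by
          calc k * u * p * σ = k * (u * σ) * p := by ring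
            _ ≤ _ := by gcongr
        have h10 : k ^ 2 * u * p ^ 2 * σ ^ 2 ≤ (3 / 8) ^ 2 * (1 / 6) * 1 ^ 2 := by
          calc k ^ 2 * u * p ^ 2 * σ ^ 2 = k ^ 2 * (u * σ ^ 2) * p ^ 2 := by ring
            _ ≤ _ := by gcongr
        linarith
    · -- second case
      have hm1 : m ≤ 1 / 5 := by
        rw [hm, div_le_div_iff₀ hM0 (by norm_num)]; linarith
      have hk1 : k ≤ 9 / 20 := by rw [hkeq]; linarith
      have hp1 : p ≤ 5 / 9 := by
        rw [hp, div_le_div_iff₀ hP0 (by norm_num)]; linarith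
      have hup : u * p ≤ 1 / 6 := by
        rw [hp, mul_one_div, div_le_div_iff₀ hP0 (by norm_num)]; linarith
      have hT1 : u * σ ^ 2 ≤ 5 / 39 := by
        refine hT.trans ?_
        rw [div_le_div_iff₀ (by positivity) (by norm_num)]; linarith
      have hσ1 : σ ≤ 81 / 100 := by
        have h3 : σ ^ 2 ≤ (81 / 100) ^ 2 := by
          have : 1 / 5 * σ ^ 2 ≤ u * σ ^ 2 := by gcongr
          nlinarith
        exact (sq_le_sq₀ (by positivity) (by norm_num)).mp h3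
      refine quad_form (τ := 5 / 39) (ξ := 167 / 100) (ρ := 36 / 100) hu hp0 hm0 hk0 hσ0 hx hy
        hxy hmp hT1 ?_ ?_ (by norm_num) (by norm_num) ?_
      · have h4 : m * p ≤ 1 / 5 * (5 / 9) := by gcongr
        have h5 : k * (1 + 2 * m * p) ≤ 9 / 20 * (1 + 2 * (1 / 9)) := by
          have : 1 + 2 * m * p ≤ 1 + 2 * (1 / 9) := by linarith
          gcongr
        linarith
      · have h6 : u * (1 + m) ≤ 1 / 2 * (1 + 1 / 5) := by gcongr
        have h7 : m ^ 2 ≤ (1 / 5) ^ 2 := by gcongr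
        linarith
      · have h8 : u * m * p ≤ 1 / 5 * (1 / 6) := by
          calc u * m * p = m * (u * p) := by ring
            _ ≤ 1 / 5 * (1 / 6) := by gcongr
        have h9 : k * u * p * σ ≤ 9 / 20 * (1 / 6) * (81 / 100) := by
          calc k * u * p * σ = k * (u * p) * σ := by ring
            _ ≤ _ := by gcongr
        have h10 : k ^ 2 * u * p ^ 2 * σ ^ 2 ≤ (9 / 20) ^ 2 * (5 / 39) * (5 / 9) ^ 2 := by
          calc k ^ 2 * u * p ^ 2 * σ ^ 2 = k ^ 2 * (u * σ ^ 2) * p ^ 2 := by ring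
            _ ≤ _ := by gcongr
        linarith
  -- conclusion
  have hω1 : 0 < 1 + ω := by linarith
  have hx1 : x ≤ 1 := by nlinarith
  have h11 : (1 + ω) - β ^ 2 / (1 + ω) = 1 + (ω + ω ^ 2 - β ^ 2) / (1 + ω) := by
    field_simp
    ring
  rw [h11]
  have h12 : h * ((ω + ω ^ 2 - β ^ 2) / (1 + ω)) ≤ 1 - x := by
    rcases le_or_gt (ω + ω ^ 2 - β ^ 2) 0 with h13 | h13
    · have : (ω + ω ^ 2 - β ^ 2) / (1 + ω) ≤ 0 := div_nonpos_of_nonpos_of_nonneg h13 hω1.le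
      have := mul_nonpos_of_nonneg_of_nonpos hh0 this
      linarith
    · have h14 : (ω + ω ^ 2 - β ^ 2) / (1 + ω) ≤ ω + ω ^ 2 - β ^ 2 :=
        div_le_self h13.le (by linarith)
      calc h * ((ω + ω ^ 2 - β ^ 2) / (1 + ω)) ≤ u * (ω + ω ^ 2 - β ^ 2) := by
            have : 0 ≤ (ω + ω ^ 2 - β ^ 2) / (1 + ω) := by positivity
            gcongr
        _ ≤ u * (ω + ω ^ 2 - (p ^ 2 * x ^ 2 - 2 * p ^ 2 * σ * x * y)) := by gcongr
        _ ≤ 1 - x := hmain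
  linarith

end Pool.Agent.Helper53.CAC
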