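import Pool.Agent.Helper53.CAC.Circle
import Pool.Agent.Helper53.CAC.RealIneq

/-!
# The disc and a small set
-/

set_option autoImplicit false

open Filter Topology Set Metric Real MeasureTheory ComplexConjugate

namespace Pool.Agent.Helper53.CAC

theorem average_inv_sub {R : ℝ} (hR : 0 < R) {z : ℂ} (hz : R < ‖z‖) :
    circleAverage (fun w => (z - w)⁻¹) 0 R = z⁻¹ := by
  have habs : |R| = R := abs_of_pos hR
  have hne : ∀ w ∈ closedBall (0 : ℂ) R, z - w ≠ 0 := by
    intro w hw h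
    have : z = w := sub_eq_zero.mp h
    rw [mem_closedBall_zero_iff, ← this] at hw
    linarith
  have hd : DiffContOnCl ℂ (fun w : ℂ => (z - w)⁻¹) (ball 0 |R|) := by
    rw [habs]
    refine ⟨?_, ?_⟩
    · exact ((differentiableOn_const _).sub differentiableOn_id).inv
        fun w hw => hne w (ball_subset_closedBall hw)
    · rw [closure_ball _ hR.ne']
      exact (continuousOn_const.sub continuousOn_id).inv₀ hne
  rw [hd.circleAverage, sub_zero]

/-- The remainder of `outer` after the leading term. -/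
theorem outer_sub_leading {f : ℂ → ℂ} (hf : Continuous f) {R : ℝ} (hR : 0 < R) {z : ℂ}
    (hz : R < ‖z‖) :
    outer f R z - outerCoeff f R / z
      = circleAverage (fun w => (f w - outerCoeff f R / w) * (w ^ 2 / (z * (z - w)))) 0 R := by
  have habs : |R| = R := abs_of_pos hR
  have hz0 : z ≠ 0 := by rintro rfl; rw [norm_zero] at hz; linarith
  have hne : ∀ w ∈ sphere (0 : ℂ) |R|, z - w ≠ 0 := by
    intro w hw h
    have : z = w := sub_eq_zero.mp h
    rw [habs, mem_sphere_zero_iff_norm, ← this] at hw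
    linarith
  have hw0 : ∀ w ∈ sphere (0 : ℂ) |R|, w ≠ 0 := by
    intro w hw h
    rw [habs, mem_sphere_zero_iff_norm, h, norm_zero] at hw; exact hR.ne hw
  set c := outerCoeff f R with hc
  have c1 : ContinuousOn (fun w : ℂ => w / (z - w) * f w) (sphere 0 |R|) :=
    (continuousOn_id.div (continuousOn_const.sub continuousOn_id) hne).mul hf.continuousOn
  have c2 : ContinuousOn (fun w : ℂ => w * f w) (sphere 0 |R|) :=
    continuousOn_id.mul hf.continuousOn
  have c3 : ContinuousOn (fun w : ℂ => (z - w)⁻¹) (sphere 0 |R|) :=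
    (continuousOn_const.sub continuousOn_id).inv₀ hne
  have i1 : CircleIntegrable (fun w => w / (z - w) * f w) 0 R := c1.circleIntegrable'
  have i2 : CircleIntegrable (fun w => (-z⁻¹) • (w * f w)) 0 R :=
    (c2.const_smul (-z⁻¹)).circleIntegrable'
  have i3 : CircleIntegrable (fun w => (-c / z) • (z - w)⁻¹) 0 R :=
    (c3.const_smul (-c / z)).circleIntegrable'
  have i4 : CircleIntegrable (fun w : ℂ => ((-c / z) • (z - w)⁻¹) * 1) 0 R := by
    simpa using i3
  have key : circleAverage (fun w => (f w - c / w) * (w ^ 2 / (z * (z - w)))) 0 R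
      = circleAverage (fun w => ((w / (z - w) * f w + (-z⁻¹) • (w * f w))
        + (-c) • (z - w)⁻¹) + c / z) 0 R := by
    refine circleAverage_congr_sphere fun w hw => ?_
    have h1 := hne w hw
    have h2 := hw0 w hw
    simp only [smul_eq_mul]
    field_simp
    ring
  have i5 : CircleIntegrable (fun w => (-c) • (z - w)⁻¹) 0 R :=
    (c3.const_smul (-c)).circleIntegrable'
  rw [key, circleAverage_fun_add ((i1.fun_add i2).fun_add i5) (circleIntegrable_const _ _ _),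
    circleAverage_fun_add (i1.fun_add i2) i5, circleAverage_fun_add i1 i2, circleAverage_fun_smul,
    circleAverage_fun_smul, average_inv_sub hR hz, circleAverage_const]
  have h3 : circleAverage (fun w => w / (z - w) * f w) 0 R = outer f R z := rfl
  have h4 : circleAverage (fun w => w * f w) 0 R = c := rfl
  rw [h3, h4]
  simp only [smul_eq_mul]
  field_simp
  ring

/-- Size of `outer` at the centre of the small set. -/
theorem center_bound {f : ℂ → ℂ} (hf : Continuous f) (hb : ∀ z, ‖f z‖ ≤ 1) {R : ℝ} (hR : 0 < R)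
    {z : ℂ} (hz : R < ‖z‖) {y : ℝ} (hy : 0 ≤ y)
    (hxy : (‖outerCoeff f R‖ / R) ^ 2 + y ^ 2 = 1) :
    ‖outerCoeff f R‖ / ‖z‖ - R ^ 2 / ‖z‖ * y / √(‖z‖ ^ 2 - R ^ 2) ≤ ‖outer f R z‖ := by
  have hz0 : 0 < ‖z‖ := hR.trans hz
  have hzne : z ≠ 0 := norm_pos_iff.mp hz0
  have hne : ∀ w ∈ sphere (0 : ℂ) R, z - w ≠ 0 := by
    intro w hw h
    have : z = w := sub_eq_zero.mp h
    rw [mem_sphere_zero_iff_norm, ← this] at hw
    linarith
  have h1 := kernel_bound hf hb hR hz (K := fun w => w ^ 2 / (z * (z - w))) (κ := R ^ 2 / ‖z‖)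
    (by positivity) hy hxy ?_ ?_
  · rw [← outer_sub_leading hf hR hz] at h1
    have h2 : ‖outerCoeff f R / z‖ - ‖outer f R z‖ ≤ ‖outer f R z - outerCoeff f R / z‖ := by
      rw [norm_sub_rev]; exact norm_sub_norm_le _ _
    rw [norm_div] at h2
    linarith
  · refine (continuousOn_id.pow 2).div
      (continuousOn_const.mul (continuousOn_const.sub continuousOn_id)) fun w hw => ?_
    exact mul_ne_zero hzne (hne w hw)
  · intro w hw
    rw [mem_sphere_zero_iff_norm] at hw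
    rw [norm_div, norm_pow, norm_mul, hw]
    rw [div_mul_eq_div_div, div_eq_mul_inv (R ^ 2 / ‖z‖)]

/-- Oscillation of `outer` on the small set. -/
theorem osc_bound {f : ℂ → ℂ} (hf : Continuous f) (hb : ∀ z, ‖f z‖ ≤ 1) {R : ℝ} (hR : 0 < R)
    {b z : ℂ} {η : ℝ} (hη : 0 < η) (hRb : R + η < ‖b‖) (hzb : ‖z - b‖ ≤ η) {y : ℝ} (hy : 0 ≤ y)
    (hxy : (‖outerCoeff f R‖ / R) ^ 2 + y ^ 2 = 1) :
    ‖outer f R z - outer f R b‖ ≤ ‖outerCoeff f R‖ * η / ((‖b‖ - η) * ‖b‖)
      + R ^ 2 * η / ‖b‖ * (1 / (‖b‖ - η) + 1 / (‖b‖ - R)) * y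
        / √((‖b‖ - η) ^ 2 - R ^ 2) := by
  have hzn : ‖b‖ - η ≤ ‖z‖ := by
    have := norm_sub_norm_le b z
    rw [norm_sub_rev] at this
    linarith
  have hM0 : 0 < ‖b‖ - η := by linarith
  have hb0 : 0 < ‖b‖ := by linarith
  have hz0 : 0 < ‖z‖ := by linarith
  have hzR : R < ‖z‖ := by linarith
  have hbR : R < ‖b‖ := by linarith
  have hbR' : 0 < ‖b‖ - R := by linarith
  have hzne : z ≠ 0 := norm_pos_iff.mp hz0
  have hbne : b ≠ 0 := norm_pos_iff.mp hb0
  have habs : |R| = R := abs_of_pos hR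
  have hne : ∀ v : ℂ, R < ‖v‖ → ∀ w ∈ sphere (0 : ℂ) |R|, v - w ≠ 0 := by
    intro v hv w hw h
    have : v = w := sub_eq_zero.mp h
    rw [habs, mem_sphere_zero_iff_norm, ← this] at hw
    linarith
  have hw0 : ∀ w ∈ sphere (0 : ℂ) |R|, w ≠ 0 := by
    intro w hw h
    rw [habs, mem_sphere_zero_iff_norm, h, norm_zero] at hw; exact hR.ne hw
  set c := outerCoeff f R with hc
  set κ := R ^ 2 * η / ‖b‖ * (1 / (‖b‖ - η) + 1 / (‖b‖ - R)) with hκ
  have hκ0 : 0 ≤ κ := by positivity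
  -- difference of the remainders
  have hcu : ContinuousOn (fun w => f w - c / w) (sphere 0 |R|) :=
    hf.continuousOn.sub (continuousOn_const.div continuousOn_id hw0)
  have hcv : ∀ v : ℂ, R < ‖v‖ → v ≠ 0 →
      ContinuousOn (fun w : ℂ => w ^ 2 / (v * (v - w))) (sphere 0 |R|) := by
    intro v hv hv0
    exact (continuousOn_id.pow 2).div
      (continuousOn_const.mul (continuousOn_const.sub continuousOn_id))
      fun w hw => mul_ne_zero hv0 (hne v hv w hw)
  have hiv : ∀ v : ℂ, R < ‖v‖ → v ≠ 0 →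
      CircleIntegrable (fun w => (f w - c / w) * (w ^ 2 / (v * (v - w)))) 0 R :=
    fun v hv hv0 => (hcu.mul (hcv v hv hv0)).circleIntegrable'
  have hdiff : (outer f R z - c / z) - (outer f R b - c / b)
      = circleAverage (fun w => (f w - c / w)
        * (w ^ 2 / (z * (z - w)) - w ^ 2 / (b * (b - w)))) 0 R := by
    rw [outer_sub_leading hf hR hzR, outer_sub_leading hf hR hbR,
      ← circleAverage_fun_sub (hiv z hzR hzne) (hiv b hbR hbne)]
    congr 1
    funext w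
    ring
  have h1 := kernel_bound hf hb hR hzR
    (K := fun w => w ^ 2 / (z * (z - w)) - w ^ 2 / (b * (b - w))) (κ := κ) hκ0 hy hxy ?_ ?_
  · rw [← hc, ← hdiff] at h1
    have h2 : outer f R z - outer f R b
        = ((outer f R z - c / z) - (outer f R b - c / b)) + c * (b - z) / (z * b) := by
      field_simp
      ring
    have h3 : ‖c * (b - z) / (z * b)‖ ≤ ‖c‖ * η / ((‖b‖ - η) * ‖b‖) := by
      rw [norm_div, norm_mul, norm_mul, norm_sub_rev b z]
      gcongr
    have h4 : κ * y / √(‖z‖ ^ 2 - R ^ 2) ≤ κ * y / √((‖b‖ - η) ^ 2 - R ^ 2) := by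
      have h5 : 0 < (‖b‖ - η) ^ 2 - R ^ 2 := by nlinarith
      gcongr
    rw [h2]
    calc _ ≤ ‖(outer f R z - c / z) - (outer f R b - c / b)‖ + ‖c * (b - z) / (z * b)‖ :=
          norm_add_le _ _
      _ ≤ _ := by linarith
  · rw [← habs]
    exact (hcv z hzR hzne).sub (hcv b hbR hbne)
  · intro w hw
    have hzw := hne z hzR w (by rw [habs]; exact hw)
    have hbw := hne b hbR w (by rw [habs]; exact hw)
    rw [mem_sphere_zero_iff_norm] at hw
    have hbwn : ‖b‖ - R ≤ ‖b - w‖ := by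
      have := norm_sub_norm_le b w
      rwa [hw] at this
    have hzw0 : 0 < ‖z - w‖ := norm_pos_iff.mpr hzw
    have hbw0 : 0 < ‖b - w‖ := norm_pos_iff.mpr hbw
    have h6 : w ^ 2 / (z * (z - w)) - w ^ 2 / (b * (b - w))
        = (w ^ 2 * (b - z) / b) * ((1 / (b - w) + 1 / z) * (z - w)⁻¹) := by
      field_simp
      ring
    rw [h6, norm_mul, norm_mul, norm_div, norm_mul, norm_pow, hw, norm_inv, norm_sub_rev b z]
    have h7 : ‖1 / (b - w) + 1 / z‖ ≤ 1 / (‖b‖ - η) + 1 / (‖b‖ - R) := by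
      calc ‖1 / (b - w) + 1 / z‖ ≤ ‖1 / (b - w)‖ + ‖1 / z‖ := norm_add_le _ _
        _ = 1 / ‖b - w‖ + 1 / ‖z‖ := by rw [norm_div, norm_div, norm_one]
        _ ≤ 1 / (‖b‖ - R) + 1 / (‖b‖ - η) := by gcongr
        _ = _ := by ring
    calc R ^ 2 * ‖z - b‖ / ‖b‖ * (‖1 / (b - w) + 1 / z‖ * ‖z - w‖⁻¹)
        ≤ R ^ 2 * η / ‖b‖ * ((1 / (‖b‖ - η) + 1 / (‖b‖ - R)) * ‖z - w‖⁻¹) := by gcongr
      _ = κ * ‖z - w‖⁻¹ := by rw [hκ]; ring

/-- The coefficient estimate for a disc centred at the origin and a small set. -/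
theorem coeff_split {f : ℂ → ℂ} {A : ℂ} {R η : ℝ} {b : ℂ} {E : Set ℂ} (hη : 0 < η)
    (hηR : 2 * η ≤ R) (hRb : R + 4 * η ≤ ‖b‖) (hE : IsCompact E) (hEb : E ⊆ closedBall b η)
    (hf : Admissible (closedBall 0 R ∪ E) f A) :
    ∃ H h, Admissible E H h ∧ ‖A‖ ≤ R + ‖h‖ := by
  have hR : 0 < R := by linarith
  have hb0 : 0 < ‖b‖ := by linarith
  obtain ⟨K, hK, hKE, hKd⟩ := hf.holo
  have hd : DifferentiableOn ℂ f (closedBall 0 R ∪ E)ᶜ :=
    hKd.mono (compl_subset_compl.mpr hKE)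
  have hEρ : ∀ z ∈ E, ‖b‖ - η ≤ ‖z‖ := by
    intro z hz
    have h1 := hEb hz
    rw [mem_closedBall, dist_eq_norm] at h1
    have := norm_sub_norm_le b z
    rw [norm_sub_rev] at this
    linarith
  obtain ⟨f₂, hf₂c, hf₂d, hf₂E, hf₂z, hf₂a⟩ := split_part hf.cont hf.bound hR
    (ρ := ‖b‖ - η) (by linarith) hE.isClosed hEρ hd hf.zero hf.coeff
  set c := outerCoeff f R with hc
  have hcR : ‖c‖ ≤ R := outerCoeff_le hf.bound hR
  set x := ‖c‖ / R with hx
  have hx0 : 0 ≤ x := by positivity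
  have hx1 : x ≤ 1 := by rw [hx, div_le_one hR]; exact hcR
  set y := √(1 - x ^ 2) with hy
  have hy0 : 0 ≤ y := Real.sqrt_nonneg _
  have hxy : x ^ 2 + y ^ 2 = 1 := by
    rw [hy, Real.sq_sqrt (by nlinarith)]; ring
  set u := η / R with hu
  set P := ‖b‖ / R with hP
  set M := P - u with hM
  have hu0 : 0 < u := by positivity
  have hu2 : u ≤ 1 / 2 := by
    rw [hu, div_le_div_iff₀ hR (by norm_num)]; linarith
  have hPu : 1 + 4 * u ≤ P := by
    have : 1 + 4 * u = (R + 4 * η) / R := by rw [hu]; field_simp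
    rw [this, hP]
    gcongr
  have hM1 : 0 < M ^ 2 - 1 := by
    have : 1 < M := by rw [hM]; linarith
    nlinarith
  set σ := 1 / √(M ^ 2 - 1) with hσ
  have hσ0 : 0 < σ := by positivity
  have hσ2 : σ ^ 2 = 1 / (M ^ 2 - 1) := by
    rw [hσ, div_pow, Real.sq_sqrt hM1.le, one_pow]
  have hbP : ‖b‖ = P * R := by rw [hP]; field_simp
  have hηu : η = u * R := by rw [hu]; field_simp
  have hcx : ‖c‖ = x * R := by rw [hx]; field_simp
  have hP1 : 1 < P := by linarith
  have hP0 : 0 < P := by linarith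
  have hM0 : 0 < M := by rw [hM]; linarith
  have hP10 : 0 < P - 1 := by linarith
  -- the oscillation
  set ω := u / M / P * x + (u * (1 / M + 1 / (P - 1))) / P * σ * y with hω
  have hω0 : 0 ≤ ω := by positivity
  have hsq : √((‖b‖ - η) ^ 2 - R ^ 2) = R * √(M ^ 2 - 1) := by
    have : (‖b‖ - η) ^ 2 - R ^ 2 = R ^ 2 * (M ^ 2 - 1) := by rw [hbP, hηu, hM]; ring
    rw [this, Real.sqrt_mul (by positivity), Real.sqrt_sq hR.le]
  have hosc : ∀ z ∈ E, ‖outer f R z - outer f R b‖ ≤ ω := by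
    intro z hz
    have h1 := hEb hz
    rw [mem_closedBall, dist_eq_norm] at h1
    have h2 := osc_bound hf.cont hf.bound hR hη (by linarith) h1 hy0 hxy
    refine h2.trans (le_of_eq ?_)
    rw [hsq, ← hc, hcx, hω, hσ, hbP, hηu]
    have e1 : P * R - u * R = M * R := by rw [hM]; ring
    have e2 : P * R - R = (P - 1) * R := by ring
    rw [e1, e2]
    have hs0 : √(M ^ 2 - 1) ≠ 0 := (Real.sqrt_pos.mpr hM1).ne'
    field_simp
  set β := outer f R b with hβ
  have hβl : x / P - y * σ / P ≤ ‖β‖ := by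
    have h1 := center_bound hf.cont hf.bound hR (z := b) (by linarith) hy0 hxy
    refine le_trans ?_ h1
    have h3 : √((‖b‖ - η) ^ 2 - R ^ 2) ≤ √(‖b‖ ^ 2 - R ^ 2) := by
      have : 0 ≤ ‖b‖ - η := by linarith
      gcongr
      linarith
    rw [hsq] at h3
    have hs0 : 0 < R * √(M ^ 2 - 1) := by positivity
    have h4 : R ^ 2 / ‖b‖ * y / √(‖b‖ ^ 2 - R ^ 2) ≤ R ^ 2 / ‖b‖ * y / (R * √(M ^ 2 - 1)) := by
      gcongr
    have h5 : R ^ 2 / ‖b‖ * y / (R * √(M ^ 2 - 1)) = y * σ / P := by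
      rw [hσ, hbP]; field_simp
    have h6 : ‖outerCoeff f R‖ / ‖b‖ = x / P := by
      rw [← hc, hcx, hbP]; field_simp
    rw [h6]
    linarith
  -- the function for `E`
  have hFc : Continuous fun z => f₂ z + β := hf₂c.add continuous_const
  have hFd : DifferentiableOn ℂ (fun z => f₂ z + β) Eᶜ := hf₂d.add_const β
  have hFl : Tendsto (fun z => f₂ z + β) (cocompact ℂ) (𝓝 β) := by
    simpa using hf₂z.add_const β
  have hFa : Tendsto (fun z => z * ((f₂ z + β) - β)) (cocompact ℂ) (𝓝 (A - c)) := by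
    simpa using hf₂a
  have hFC : ∀ z ∈ E, ‖f₂ z + β‖ ≤ 1 + ω := by
    intro z hz
    rw [hf₂E z hz]
    calc ‖f z - outer f R z + β‖ = ‖f z - (outer f R z - β)‖ := by congr 1; ring
      _ ≤ ‖f z‖ + ‖outer f R z - β‖ := norm_sub_le _ _
      _ ≤ 1 + ω := add_le_add (hf.bound z) (hosc z hz)
  obtain ⟨H, h, hH, hcoef⟩ := mobius hE hFc hFd hFl hFa (C := 1 + ω) (by linarith) hFC
  refine ⟨H, h, hH, ?_⟩
  have hh : ‖h‖ ≤ η := coeff_le hH hη hEb
  have hfin := norm_ineq (h := ‖h‖ / R) hu0 hu2 hPu rfl hx0 hy0 hxy hσ0 hσ2 (norm_nonneg β) hβl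
    (by positivity) (by rw [hu]; gcongr)
  rw [← hω] at hfin
  have h1 : ‖A‖ ≤ ‖c‖ + ‖A - c‖ := by
    calc ‖A‖ = ‖c + (A - c)‖ := by congr 1; ring
      _ ≤ _ := norm_add_le _ _
  rw [hcoef, hcx] at h1
  have h2 : x * R + ‖h‖ * (1 + ω - ‖β‖ ^ 2 / (1 + ω))
      = R * (x + ‖h‖ / R * (1 + ω - ‖β‖ ^ 2 / (1 + ω))) := by
    field_simp
  rw [h2] at h1
  calc ‖A‖ ≤ R * (x + ‖h‖ / R * (1 + ω - ‖β‖ ^ 2 / (1 + ω))) := h1
    _ ≤ R * (1 + ‖h‖ / R) := by gcongr
    _ = R + ‖h‖ := by field_simp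

end Pool.Agent.Helper53.CAC
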