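import Pool.Agent.Helper53.CAC.Exterior

/-!
# The Moebius transformation and the size of the coefficient
-/

set_option autoImplicit false

open Filter Topology Set Metric ComplexConjugate

namespace Pool.Agent.Helper53.CAC

theorem mobius_norm_le {g c : ℂ} (hg : ‖g‖ ≤ 1) (hc : ‖c‖ < 1) :
    ‖(g - c) / (1 - conj c * g)‖ ≤ 1 := by
  have hden : 0 < ‖1 - conj c * g‖ := by
    rw [norm_pos_iff]
    intro h
    have h1 : conj c * g = 1 := by linear_combination -h
    have h2 : ‖conj c * g‖ = 1 := by rw [h1]; simp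
    rw [norm_mul, RCLike.norm_conj] at h2
    have h3 : ‖c‖ * ‖g‖ ≤ ‖c‖ * 1 := by gcongr
    linarith
  rw [norm_div, div_le_one hden]
  have key : ‖1 - conj c * g‖ ^ 2 - ‖g - c‖ ^ 2 = (1 - ‖g‖ ^ 2) * (1 - ‖c‖ ^ 2) := by
    simp only [Complex.sq_norm, Complex.normSq_apply, Complex.sub_re, Complex.sub_im,
      Complex.mul_re, Complex.mul_im, Complex.conj_re, Complex.conj_im, Complex.one_re,
      Complex.one_im]
    ring
  have h1 : 0 ≤ (1 - ‖g‖ ^ 2) * (1 - ‖c‖ ^ 2) := by
    have h2 : 0 ≤ 1 - ‖g‖ ^ 2 := by nlinarith [norm_nonneg g]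
    have h3 : 0 ≤ 1 - ‖c‖ ^ 2 := by nlinarith [norm_nonneg c]
    positivity
  have h4 : ‖g - c‖ ^ 2 ≤ ‖1 - conj c * g‖ ^ 2 := by linarith
  exact (sq_le_sq₀ (norm_nonneg _) (norm_nonneg _)).mp h4

theorem admissible_zero {E : Set ℂ} (hE : IsCompact E) : Admissible E (fun _ => 0) 0 where
  cont := continuous_const
  bound := fun z => by simp
  holo := ⟨E, hE, subset_rfl, differentiableOn_const _⟩
  zero := tendsto_const_nhds
  coeff := by simp

/-- From a function bounded by `C` on `E` with value `β` at infinity to an admissible one. -/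
theorem mobius {E : Set ℂ} (hE : IsCompact E) {F : ℂ → ℂ} (hFc : Continuous F)
    (hFd : DifferentiableOn ℂ F Eᶜ) {β a : ℂ} (hlim : Tendsto F (cocompact ℂ) (𝓝 β))
    (ha : Tendsto (fun z => z * (F z - β)) (cocompact ℂ) (𝓝 a)) {C : ℝ} (hC0 : 0 < C)
    (hC : ∀ z ∈ E, ‖F z‖ ≤ C) :
    ∃ H h, Admissible E H h ∧ ‖a‖ = ‖h‖ * (C - ‖β‖ ^ 2 / C) := by
  rcases le_or_gt C ‖β‖ with hle | hlt
  · have h1 : ∀ z, ‖F z‖ ≤ ‖β‖ := fun z => by
      have := max_ext hE hFc hFd hlim hC z
      rwa [max_eq_right hle] at this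
    have h2 := const_inf hE hFd hlim ha h1
    exact ⟨fun _ => 0, 0, admissible_zero hE, by simp [h2]⟩
  · have hF : ∀ z, ‖F z‖ ≤ C := fun z => by
      have := max_ext hE hFc hFd hlim hC z
      rwa [max_eq_left hlt.le] at this
    have hCc : (C : ℂ) ≠ 0 := by exact_mod_cast hC0.ne'
    have hCn : ‖(C : ℂ)‖ = C := by simp [abs_of_pos hC0]
    set c : ℂ := β / C with hc
    have hcn : ‖c‖ < 1 := by
      rw [hc, norm_div, hCn, div_lt_one hC0]; exact hlt
    have hg : ∀ z, ‖F z / C‖ ≤ 1 := fun z => by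
      rw [norm_div, hCn, div_le_one hC0]; exact hF z
    have hden : ∀ z, 1 - conj c * (F z / C) ≠ 0 := by
      intro z h
      have h1 : conj c * (F z / C) = 1 := by linear_combination -h
      have h2 : ‖conj c * (F z / C)‖ = 1 := by rw [h1]; simp
      rw [norm_mul, RCLike.norm_conj] at h2
      have h3 : ‖c‖ * ‖F z / C‖ ≤ ‖c‖ * 1 := by gcongr; exact hg z
      linarith
    set H : ℂ → ℂ := fun z => (F z / C - c) / (1 - conj c * (F z / C)) with hH
    set D : ℂ := 1 - conj c * c with hD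
    have hDr : D = ((1 - ‖c‖ ^ 2 : ℝ) : ℂ) := by
      rw [hD, mul_comm, Complex.mul_conj, Complex.normSq_eq_norm_sq]; push_cast; ring
    have hDpos : 0 < 1 - ‖c‖ ^ 2 := by nlinarith [norm_nonneg c]
    have hD0 : D ≠ 0 := by rw [hDr]; exact_mod_cast hDpos.ne'
    have hFC : Tendsto (fun z => F z / C) (cocompact ℂ) (𝓝 c) := hlim.div_const _
    have hdenl : Tendsto (fun z => 1 - conj c * (F z / C)) (cocompact ℂ) (𝓝 D) :=
      tendsto_const_nhds.sub (tendsto_const_nhds.mul hFC)
    refine ⟨H, a / C / D, ⟨?_, ?_, ?_, ?_, ?_⟩, ?_⟩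
    · exact ((hFc.div_const _).sub continuous_const).div
        (continuous_const.sub (continuous_const.mul (hFc.div_const _))) hden
    · intro z
      exact mobius_norm_le (hg z) hcn
    · refine ⟨E, hE, subset_rfl, ?_⟩
      exact ((hFd.div_const _).sub (differentiableOn_const _)).div
        ((differentiableOn_const _).sub ((differentiableOn_const _).mul (hFd.div_const _)))
        (fun z _ => hden z)
    · have h1 : Tendsto H (cocompact ℂ) (𝓝 ((c - c) / D)) :=
        (hFC.sub tendsto_const_nhds).div hdenl hD0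
      simpa using h1
    · have h1 : Tendsto (fun z => (z * (F z - β)) / C / (1 - conj c * (F z / C))) (cocompact ℂ)
          (𝓝 (a / C / D)) := (ha.div_const _).div hdenl hD0
      refine h1.congr fun z => ?_
      simp only [hH, hc]
      ring
    · rw [norm_div, norm_div, hCn, hDr, Complex.norm_real, Real.norm_of_nonneg hDpos.le]
      have h1 : ‖c‖ = ‖β‖ / C := by rw [hc, norm_div, hCn]
      rw [h1] at hDpos ⊢
      have h2 : C ^ 2 - ‖β‖ ^ 2 ≠ 0 := by
        have : 0 < C ^ 2 - ‖β‖ ^ 2 := by nlinarith [norm_nonneg β]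
        exact this.ne'
      field_simp

theorem coeff_le {E : Set ℂ} {H : ℂ → ℂ} {h : ℂ} (hH : Admissible E H h) {b : ℂ} {η : ℝ}
    (hη : 0 < η) (hE : E ⊆ closedBall b η) : ‖h‖ ≤ η := by
  obtain ⟨K, hK, hKE, hd⟩ := hH.holo
  -- translate to the origin
  set Q : ℂ → ℂ := fun z => z * H (z + b) with hQ
  have hQd : DifferentiableOn ℂ Q {z | η < ‖z‖} := by
    refine differentiableOn_id.mul ?_
    refine hd.comp (differentiableOn_id.add_const b) ?_
    intro z hz hzK
    have := hE (hKE hzK)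
    rw [mem_closedBall, dist_eq_norm] at this
    simp only [mem_ofPred_eq] at hz
    simp only [id, add_sub_cancel_right] at this
    linarith
  have htr : Tendsto (fun z : ℂ => z + b) (cocompact ℂ) (cocompact ℂ) :=
    (Homeomorph.addRight b).isClosedEmbedding.tendsto_cocompact
  have hlim : Tendsto Q (cocompact ℂ) (𝓝 h) := by
    have h1 : Tendsto (fun z => (z + b) * H (z + b) - b * H (z + b)) (cocompact ℂ)
        (𝓝 (h - b * 0)) :=
      (hH.coeff.comp htr).sub (tendsto_const_nhds.mul (hH.zero.comp htr))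
    rw [mul_zero, sub_zero] at h1
    refine h1.congr fun z => ?_
    simp only [hQ]; ring
  have hφ := inv_ext hη hQd hlim
  set φ := Function.update (fun ζ => Q ζ⁻¹) 0 h with hφd
  -- for every ρ > η the value at 0 is at most ρ
  refine le_of_forall_gt_imp_ge_of_dense fun ρ hρ => ?_
  have hρ0 : 0 < ρ := hη.trans hρ
  have hsub : closedBall (0 : ℂ) ρ⁻¹ ⊆ ball 0 η⁻¹ :=
    closedBall_subset_ball (inv_strictAnti₀ hη hρ)
  have hdc : DiffContOnCl ℂ φ (ball 0 ρ⁻¹) := by
    refine ⟨hφ.mono (ball_subset_closedBall.trans hsub), ?_⟩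
    exact hφ.continuousOn.mono (closure_ball_subset_closedBall.trans hsub)
  have hfr : ∀ z ∈ frontier (ball (0 : ℂ) ρ⁻¹), ‖φ z‖ ≤ ρ := by
    intro z hz
    have hz1 : z ∈ sphere (0 : ℂ) ρ⁻¹ := frontier_ball_subset_sphere hz
    rw [mem_sphere_zero_iff_norm] at hz1
    have hz0 : z ≠ 0 := by
      intro h0; rw [h0, norm_zero] at hz1
      exact (inv_pos.mpr hρ0).ne hz1
    rw [hφd, Function.update_of_ne hz0]
    simp only [hQ, norm_mul, norm_inv, hz1, inv_inv]
    calc ρ * ‖H (z⁻¹ + b)‖ ≤ ρ * 1 := by gcongr; exact hH.bound _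
      _ = ρ := mul_one _
  have := Complex.norm_le_of_forall_mem_frontier_norm_le isBounded_ball hdc hfr
    (subset_closure (mem_ball_self (inv_pos.mpr hρ0)))
  rwa [hφd, Function.update_self] at this

end Pool.Agent.Helper53.CAC
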